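import Mathlib

/-!
Ben Rebea's lemma: a connected claw-free graph without induced pentagon and with three pairwise
non-adjacent vertices has no odd antihole. Shortest odd closed walks are induced cycles.
-/

set_option autoImplicit false

namespace MP7bd86d

variable {U : Type*}

/-- no induced claw -/
def NoClaw (H : SimpleGraph U) : Prop :=
  ∀ v a b c, H.Adj v a → H.Adj v b → H.Adj v c → a ≠ b → b ≠ c → a ≠ c →
    H.Adj a b ∨ H.Adj b c ∨ H.Adj a c

/-- no induced pentagon -/
def NoPent (H : SimpleGraph U) : Prop :=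
  ∀ a b c d e, H.Adj a b → H.Adj b c → H.Adj c d → H.Adj d e → H.Adj e a →
    ¬ H.Adj a c → ¬ H.Adj b d → ¬ H.Adj c e → ¬ H.Adj d a → ¬ H.Adj e b → False

/-! ### Odd cyclic index sets -/

lemma odd_alt {m : ℕ} (hm : Odd m) (P : ZMod m → Prop) (h : ∀ i, P (i + 1) ↔ ¬ P i) : False := by
  have key : ∀ n : ℕ, P (n : ZMod m) ↔ (P 0 ↔ Even n) := by
    intro n
    induction n with
    | zero => simp
    | succ n ih =>
      rw [Nat.cast_succ, h, ih, Nat.even_add_one]
      tauto
  have h1 := key m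
  rw [ZMod.natCast_self] at h1
  have h2 : ¬ Even m := Nat.not_even_iff_odd.2 hm
  tauto

lemma odd_two {m : ℕ} (hm : Odd m) (P : ZMod m → Prop) (h : ∀ i, P i → P (i + 2)) (i : ZMod m)
    (hi : P i) : P (i + 1) := by
  have key : ∀ n : ℕ, P (i + 2 * (n : ZMod m)) := by
    intro n
    induction n with
    | zero => simpa using hi
    | succ n ih =>
      have := h _ ih
      have e : i + 2 * (n : ZMod m) + 2 = i + 2 * ((n + 1 : ℕ) : ZMod m) := by
        push_cast
        ring
      rwa [e] at this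
  obtain ⟨t, ht⟩ := hm
  have h1 := key (t + 1)
  have e : i + 2 * ((t + 1 : ℕ) : ZMod m) = i + 1 := by
    have h2 : ((2 * t + 1 : ℕ) : ZMod m) = 0 := by
      rw [← ht]
      exact ZMod.natCast_self m
    push_cast at h2 ⊢
    linear_combination h2
  rwa [e] at h1

lemma zmod_ne {m : ℕ} (hm : 7 ≤ m) (k : ℕ) (h0 : 0 < k) (h6 : k ≤ 6) : (k : ZMod m) ≠ 0 := by
  rw [Ne, ZMod.natCast_eq_zero_iff]
  intro h
  have := Nat.le_of_dvd h0 h
  omega

/-! ### Ben Rebea's lemma -/

section BenRebea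

variable {H : SimpleGraph U} {m : ℕ} {a : ZMod m → U}

/-- antihole -/
structure AH (H : SimpleGraph U) (a : ZMod m → U) : Prop where
  odd : Odd m
  seven : 7 ≤ m
  inj : Function.Injective a
  adj : ∀ i j, H.Adj (a i) (a j) ↔ i ≠ j ∧ j ≠ i + 1 ∧ i ≠ j + 1

lemma AH.n1 (h : AH H a) : (1 : ZMod m) ≠ 0 := by
  have := zmod_ne h.seven 1 (by norm_num) (by norm_num)
  simpa using this
lemma AH.n2 (h : AH H a) : (2 : ZMod m) ≠ 0 := by
  have := zmod_ne h.seven 2 (by norm_num) (by norm_num)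
  simpa using this
lemma AH.n3 (h : AH H a) : (3 : ZMod m) ≠ 0 := by
  have := zmod_ne h.seven 3 (by norm_num) (by norm_num)
  simpa using this
lemma AH.n4 (h : AH H a) : (4 : ZMod m) ≠ 0 := by
  have := zmod_ne h.seven 4 (by norm_num) (by norm_num)
  simpa using this
lemma AH.n5 (h : AH H a) : (5 : ZMod m) ≠ 0 := by
  have := zmod_ne h.seven 5 (by norm_num) (by norm_num)
  simpa using this
lemma AH.n6 (h : AH H a) : (6 : ZMod m) ≠ 0 := by
  have := zmod_ne h.seven 6 (by norm_num) (by norm_num)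
  simpa using this

lemma AH.adj2 (h : AH H a) (i : ZMod m) : H.Adj (a i) (a (i + 2)) := by
  rw [h.adj]
  refine ⟨fun e => h.n2 ?_, fun e => h.n1 ?_, fun e => h.n3 ?_⟩
  · linear_combination -e
  · linear_combination e
  · linear_combination -e

lemma AH.adj3 (h : AH H a) (i : ZMod m) : H.Adj (a i) (a (i + 3)) := by
  rw [h.adj]
  refine ⟨fun e => h.n3 ?_, fun e => h.n2 ?_, fun e => h.n4 ?_⟩
  · linear_combination -e
  · linear_combination e
  · linear_combination -e

lemma AH.nadj (h : AH H a) (i : ZMod m) : ¬ H.Adj (a i) (a (i + 1)) := by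
  rw [h.adj]
  rintro ⟨-, h2, -⟩
  exact h2 rfl

lemma AH.missA (h : AH H a) (hc : NoClaw H) {w : U} (hw : w ∉ Set.range a) {i : ZMod m}
    (h1 : ¬ H.Adj w (a i)) (h2 : ¬ H.Adj w (a (i + 1))) {j : ZMod m} (h3 : j ≠ i - 1)
    (h4 : j ≠ i + 2) : ¬ H.Adj w (a j) := by
  intro hadj
  by_cases e1 : j = i
  · exact h1 (e1 ▸ hadj)
  by_cases e2 : j = i + 1
  · exact h2 (e2 ▸ hadj)
  have a1 : H.Adj (a j) (a i) := by
    rw [h.adj]
    refine ⟨e1, fun e => h3 ?_, e2⟩
    linear_combination -e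
  have a2 : H.Adj (a j) (a (i + 1)) := by
    rw [h.adj]
    refine ⟨e2, fun e => e1 ?_, fun e => h4 ?_⟩
    · linear_combination -e
    · linear_combination e
  have hwi : ∀ k, w ≠ a k := fun k e => hw ⟨k, e.symm⟩
  have hne : a i ≠ a (i + 1) := fun e => h.n1 (by linear_combination -(h.inj e))
  rcases hc (a j) w (a i) (a (i + 1)) hadj.symm a1 a2 (hwi i) hne (hwi _) with h' | h' | h'
  · exact h1 h'
  · exact h.nadj i h'
  · exact h2 h'

lemma AH.miss_all (h : AH H a) (hc : NoClaw H) {w : U} (hw : w ∉ Set.range a) {i : ZMod m}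
    (h1 : ¬ H.Adj w (a i)) (h2 : ¬ H.Adj w (a (i + 1))) (j : ZMod m) : ¬ H.Adj w (a j) := by
  have m3 : ¬ H.Adj w (a (i + 3)) := h.missA hc hw h1 h2
    (fun e => h.n4 (by linear_combination e)) (fun e => h.n1 (by linear_combination e))
  have m4 : ¬ H.Adj w (a (i + 3 + 1)) := h.missA hc hw h1 h2
    (fun e => h.n5 (by linear_combination e)) (fun e => h.n2 (by linear_combination e))
  have m5 : ¬ H.Adj w (a (i + 3 + 1 + 1)) := h.missA hc hw h1 h2
    (fun e => h.n6 (by linear_combination e)) (fun e => h.n3 (by linear_combination e))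
  by_cases e1 : j = i - 1
  · exact h.missA hc hw m3 m4 (fun e => h.n3 (by linear_combination e1 - e))
      (fun e => h.n6 (by linear_combination e1 - e))
  by_cases e2 : j = i + 2
  · exact h.missA hc hw m4 m5 (fun e => h.n1 (by linear_combination e2 - e))
      (fun e => h.n4 (by linear_combination e2 - e))
  exact h.missA hc hw h1 h2 e1 e2

lemma AH.hit_two (h : AH H a) (hc : NoClaw H) {w : U} (hw : w ∉ Set.range a)
    (h1 : ¬ ∀ j, ¬ H.Adj w (a j)) : ∃ i, H.Adj w (a i) ∧ H.Adj w (a (i + 1)) := by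
  by_contra hcon
  push Not at hcon
  refine odd_alt h.odd (fun i => H.Adj w (a i)) (fun i => ⟨fun h2 h3 => hcon i h3 h2, fun h2 => ?_⟩)
  by_contra h3
  exact h1 (h.miss_all hc hw h2 h3)

lemma AH.no_miss (h : AH H a) (hc : NoClaw H)
    (hconn : ∀ S : Set U, S.Nonempty → Sᶜ.Nonempty → ∃ x ∈ S, ∃ y ∉ S, H.Adj x y)
    {w : U} (hw : w ∉ Set.range a) (i : ZMod m) :
    H.Adj w (a i) ∨ H.Adj w (a (i + 1)) := by
  by_contra hcon
  push Not at hcon
  have hall := h.miss_all hc hw hcon.1 hcon.2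
  obtain ⟨z, ⟨hz1, hz2⟩, v, hv, hzv⟩ := hconn {z | z ∉ Set.range a ∧ ∀ j, ¬ H.Adj z (a j)}
    ⟨w, hw, hall⟩ ⟨a 0, fun h' => h'.1 ⟨0, rfl⟩⟩
  have hv1 : v ∉ Set.range a := by
    rintro ⟨j, rfl⟩
    exact hz2 j hzv
  have hv2 : ¬ ∀ j, ¬ H.Adj v (a j) := fun h' => hv ⟨hv1, h'⟩
  obtain ⟨j, hj, hj'⟩ := h.hit_two hc hv1 hv2
  have hzi : ∀ k, z ≠ a k := fun k e => hz1 ⟨k, e.symm⟩
  have hne : a j ≠ a (j + 1) := fun e => h.n1 (by linear_combination -(h.inj e))
  rcases hc v z (a j) (a (j + 1)) hzv.symm hj hj' (hzi j) hne (hzi _) with h' | h' | h'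
  · exact hz2 _ h'
  · exact h.nadj j h'
  · exact hz2 _ h'

lemma AH.patP (h : AH H a) (hp : NoPent H) {w : U} {i : ZMod m} (h0 : ¬ H.Adj w (a i))
    (h1 : H.Adj w (a (i + 1))) (h2 : H.Adj w (a (i + 2))) (h3 : ¬ H.Adj w (a (i + 3))) :
    False := by
  have e1 : i + 3 = i + 1 + 2 := by ring
  have e2 : i + 3 = i + 2 + 1 := by ring
  have e3 : i + 2 = i + 1 + 1 := by ring
  refine hp (a (i + 3)) (a i) (a (i + 2)) w (a (i + 1)) (h.adj3 i).symm (h.adj2 i) h2.symm h1 ?_
    ?_ (fun h' => h0 h'.symm) ?_ h3 (fun h' => h.nadj i h'.symm)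
  · rw [e1]
    exact h.adj2 (i + 1)
  · rw [e2]
    exact fun h' => h.nadj (i + 2) h'.symm
  · rw [e3]
    exact fun h' => h.nadj (i + 1) h'.symm

lemma AH.one_in (h : AH H a) (hc : NoClaw H) (hp : NoPent H)
    (hconn : ∀ S : Set U, S.Nonempty → Sᶜ.Nonempty → ∃ x ∈ S, ∃ y ∉ S, H.Adj x y)
    {y z : U} (hy : y ∉ Set.range a) (hz : z ∉ Set.range a) (hyz : y ≠ z) (hyz' : ¬ H.Adj y z)
    {i : ZMod m} (h1 : ¬ H.Adj y (a i)) (h2 : ¬ H.Adj z (a i)) : False := by
  have my := fun j => h.no_miss hc hconn hy j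
  have mz := fun j => h.no_miss hc hconn hz j
  have hyi : ∀ k, a k ≠ y := fun k e => hy ⟨k, e⟩
  have hzi : ∀ k, a k ≠ z := fun k e => hz ⟨k, e⟩
  have notboth : ∀ j, H.Adj (a i) (a j) → H.Adj y (a j) → H.Adj z (a j) → False := by
    intro j hij hyj hzj
    rcases hc (a j) (a i) y z hij.symm hyj.symm hzj.symm (hyi i) hyz (hzi i) with h' | h' | h'
    · exact h1 h'.symm
    · exact hyz' h'
    · exact h2 h'.symm
  have b2 := notboth (i + 2) (h.adj2 i)
  have b3 := notboth (i + 3) (h.adj3 i)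
  have e2 : i + 3 = i + 2 + 1 := by ring
  by_cases c1 : H.Adj y (a (i + 2))
  · have c2 : ¬ H.Adj z (a (i + 2)) := fun h' => b2 c1 h'
    have c3 : H.Adj z (a (i + 3)) := by
      rw [e2]
      exact (mz (i + 2)).resolve_left c2
    have c4 : ¬ H.Adj y (a (i + 3)) := fun h' => b3 h' c3
    exact h.patP hp h1 ((my i).resolve_left h1) c1 c4
  · have c3 : H.Adj y (a (i + 3)) := by
      rw [e2]
      exact (my (i + 2)).resolve_left c1
    have c4 : ¬ H.Adj z (a (i + 3)) := fun h' => b3 c3 h'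
    have c5 : H.Adj z (a (i + 2)) := by
      rcases mz (i + 2) with h' | h'
      · exact h'
      · rw [← e2] at h'
        exact absurd h' c4
    exact h.patP hp h2 ((mz i).resolve_left h2) c5 c4

lemma AH.patQ (h : AH H a) (hp : NoPent H) {x z : U} (hxz : ¬ H.Adj x z) {j : ZMod m}
    (x0 : ¬ H.Adj x (a j)) (x1 : H.Adj x (a (j + 1))) (x2 : H.Adj x (a (j + 2)))
    (z0 : H.Adj z (a j)) (z1 : H.Adj z (a (j + 1))) (z2 : ¬ H.Adj z (a (j + 2))) : False := by
  have e3 : j + 2 = j + 1 + 1 := by ring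
  refine hp (a j) (a (j + 2)) x (a (j + 1)) z (h.adj2 j) x2.symm x1 z1.symm z0
    (fun h' => x0 h'.symm) ?_ hxz (fun h' => h.nadj j h'.symm) z2
  rw [e3]
  exact fun h' => h.nadj (j + 1) h'.symm

lemma AH.none_in (h : AH H a) (hc : NoClaw H) (hp : NoPent H)
    (hconn : ∀ S : Set U, S.Nonempty → Sᶜ.Nonempty → ∃ x ∈ S, ∃ y ∉ S, H.Adj x y)
    {x y z : U} (hx : x ∉ Set.range a) (hy : y ∉ Set.range a) (hz : z ∉ Set.range a)
    (hxy : x ≠ y) (hyz : y ≠ z) (hxz : x ≠ z) (hxy' : ¬ H.Adj x y) (hyz' : ¬ H.Adj y z)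
    (hxz' : ¬ H.Adj x z) : False := by
  have cover : ∀ j, ¬ H.Adj x (a j) ∨ ¬ H.Adj y (a j) ∨ ¬ H.Adj z (a j) := by
    intro j
    by_contra hcon
    push Not at hcon
    rcases hc (a j) x y z hcon.1.symm hcon.2.1.symm hcon.2.2.symm hxy hyz hxz with h' | h' | h'
    · exact hxy' h'
    · exact hyz' h'
    · exact hxz' h'
  have exy : ∀ j, ¬ H.Adj x (a j) → ¬ H.Adj y (a j) → False := fun j h1 h2 =>
    h.one_in hc hp hconn hx hy hxy hxy' h1 h2
  have eyz : ∀ j, ¬ H.Adj y (a j) → ¬ H.Adj z (a j) → False := fun j h1 h2 =>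
    h.one_in hc hp hconn hy hz hyz hyz' h1 h2
  have exz : ∀ j, ¬ H.Adj x (a j) → ¬ H.Adj z (a j) → False := fun j h1 h2 =>
    h.one_in hc hp hconn hx hz hxz hxz' h1 h2
  have hm : ∀ w, w ∉ Set.range a → ∀ j, ¬ H.Adj w (a j) → ¬ H.Adj w (a (j + 1)) → False :=
    fun w hw j h1 h2 => (h.no_miss hc hconn hw j).elim h1 h2
  -- general step
  have step : ∀ w1 w2 w3 : U, w1 ∉ Set.range a → w2 ∉ Set.range a → w3 ∉ Set.range a →
      ¬ H.Adj w1 w2 → ¬ H.Adj w1 w3 →
      (∀ j, ¬ H.Adj w1 (a j) ∨ ¬ H.Adj w2 (a j) ∨ ¬ H.Adj w3 (a j)) →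
      (∀ j, ¬ H.Adj w1 (a j) → ¬ H.Adj w2 (a j) → False) →
      (∀ j, ¬ H.Adj w2 (a j) → ¬ H.Adj w3 (a j) → False) →
      (∀ j, ¬ H.Adj w1 (a j) → ¬ H.Adj w3 (a j) → False) →
      ∀ j, H.Adj w1 (a j) := by
    intro w1 w2 w3 hw1 hw2 hw3 n12 n13 cov e12 e23 e13
    have hstep : ∀ j, ¬ H.Adj w1 (a j) → ¬ H.Adj w1 (a (j + 2)) := by
      intro j hj hj2
      have e3 : j + 2 = j + 1 + 1 := by ring
      have hj1 : H.Adj w1 (a (j + 1)) := (h.no_miss hc hconn hw1 j).resolve_left hj
      have w2j : H.Adj w2 (a j) := by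
        by_contra h'
        exact e12 j hj h'
      have w3j : H.Adj w3 (a j) := by
        by_contra h'
        exact e13 j hj h'
      rcases cov (j + 1) with h' | h' | h'
      · exact h' hj1
      · have w3j1 : H.Adj w3 (a (j + 1)) := by
          by_contra h''
          exact e23 _ h' h''
        rcases cov (j + 2) with h'' | h'' | h''
        · exact h'' hj2
        · exact hm w2 hw2 (j + 1) h' (e3 ▸ h'')
        · exact h.patQ hp n13 hj hj1 hj2 w3j w3j1 h''
      · have w2j1 : H.Adj w2 (a (j + 1)) := by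
          by_contra h''
          exact e23 _ h'' h'
        rcases cov (j + 2) with h'' | h'' | h''
        · exact h'' hj2
        · exact h.patQ hp n12 hj hj1 hj2 w2j w2j1 h''
        · exact hm w3 hw3 (j + 1) h' (e3 ▸ h'')
    intro j
    by_contra hj
    exact hm w1 hw1 j hj (odd_two h.odd (fun i => ¬ H.Adj w1 (a i)) hstep j hj)
  have s1 := step x y z hx hy hz hxy' hxz' cover exy eyz exz 0
  have s2 := step y x z hy hx hz (fun h' => hxy' h'.symm) hyz' (fun j => by
    rcases cover j with h' | h' | h'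
    · exact Or.inr (Or.inl h')
    · exact Or.inl h'
    · exact Or.inr (Or.inr h')) (fun j h1 h2 => exy j h2 h1) exz eyz 0
  have s3 := step z x y hz hx hy (fun h' => hxz' h'.symm) (fun h' => hyz' h'.symm) (fun j => by
    rcases cover j with h' | h' | h'
    · exact Or.inr (Or.inl h')
    · exact Or.inr (Or.inr h')
    · exact Or.inl h') (fun j h1 h2 => exz j h2 h1) exy (fun j h1 h2 => eyz j h2 h1) 0
  rcases cover 0 with h' | h' | h'
  · exact h' s1
  · exact h' s2
  · exact h' s3

lemma AH.cons (h : AH H a) {i j : ZMod m} (hij : a i ≠ a j) (hadj : ¬ H.Adj (a i) (a j)) :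
    j = i + 1 ∨ i = j + 1 := by
  rw [h.adj] at hadj
  have : i ≠ j := fun e => hij (by rw [e])
  tauto

lemma AH.two_in (h : AH H a) (hc : NoClaw H)
    (hconn : ∀ S : Set U, S.Nonempty → Sᶜ.Nonempty → ∃ x ∈ S, ∃ y ∉ S, H.Adj x y)
    {x y z : U} (hx : x ∈ Set.range a) (hy : y ∈ Set.range a)
    (hxy : x ≠ y) (hyz : y ≠ z) (hxz : x ≠ z) (hxy' : ¬ H.Adj x y) (hyz' : ¬ H.Adj y z)
    (hxz' : ¬ H.Adj x z) : False := by
  obtain ⟨i, rfl⟩ := hx
  obtain ⟨j, rfl⟩ := hy
  have c1 := h.cons hxy hxy'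
  by_cases hz : z ∈ Set.range a
  · obtain ⟨k, rfl⟩ := hz
    have c2 := h.cons hyz hyz'
    have c3 := h.cons hxz hxz'
    have d1 : i ≠ j := fun e => hxy (by rw [e])
    have d2 : j ≠ k := fun e => hyz (by rw [e])
    have d3 : i ≠ k := fun e => hxz (by rw [e])
    rcases c1 with c1 | c1 <;> rcases c2 with c2 | c2 <;> rcases c3 with c3 | c3
    · exact h.n1 (by linear_combination c3 - c1 - c2)
    · exact h.n3 (by linear_combination -(c1 + c2 + c3))
    · exact d2 (by rw [c1, c3])
    · exact d3 (by linear_combination c2 - c1)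
    · exact d3 (by rw [c1, c2])
    · exact d2 (by linear_combination c3 - c1)
    · exact h.n3 (by linear_combination -(c1 + c2 + c3))
    · exact h.n1 (by linear_combination c3 - c1 - c2)
  · rcases c1 with c1 | c1
    · subst c1
      rcases h.no_miss hc hconn hz i with h' | h'
      · exact hxz' h'.symm
      · exact hyz' h'.symm
    · subst c1
      rcases h.no_miss hc hconn hz j with h' | h'
      · exact hyz' h'.symm
      · exact hxz' h'.symm

/-- Ben Rebea's lemma -/
theorem AH.false (h : AH H a) (hc : NoClaw H) (hp : NoPent H)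
    (hconn : ∀ S : Set U, S.Nonempty → Sᶜ.Nonempty → ∃ x ∈ S, ∃ y ∉ S, H.Adj x y)
    {x y z : U} (hxy : x ≠ y) (hyz : y ≠ z) (hxz : x ≠ z) (hxy' : ¬ H.Adj x y)
    (hyz' : ¬ H.Adj y z) (hxz' : ¬ H.Adj x z) : False := by
  have symm : ∀ {u v : U}, ¬ H.Adj u v → ¬ H.Adj v u := fun h h' => h h'.symm
  have one : ∀ x y z : U, x ∈ Set.range a → y ∉ Set.range a → z ∉ Set.range a → y ≠ z →
      ¬ H.Adj x y → ¬ H.Adj y z → ¬ H.Adj x z → False := by
    rintro _ y z ⟨i, rfl⟩ hy hz hyz n1 n2 n3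
    exact h.one_in hc hp hconn hy hz hyz n2 (symm n1) (symm n3)
  by_cases hx : x ∈ Set.range a <;> by_cases hy : y ∈ Set.range a <;> by_cases hz : z ∈ Set.range a
  · exact h.two_in hc hconn hx hy hxy hyz hxz hxy' hyz' hxz'
  · exact h.two_in hc hconn hx hy hxy hyz hxz hxy' hyz' hxz'
  · exact h.two_in hc hconn hx hz hxz hyz.symm hxy hxz' (symm hyz') hxy'
  · exact one x y z hx hy hz hyz hxy' hyz' hxz'
  · exact h.two_in hc hconn hy hz hyz hxz.symm hxy.symm hyz' (symm hxz') (symm hxy')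
  · exact one y x z hy hx hz hxz (symm hxy') hxz' hyz'
  · exact one z x y hz hx hy hxy (symm hxz') hxy' (symm hyz')
  · exact h.none_in hc hp hconn hx hy hz hxy hyz hxz hxy' hyz' hxz'

end BenRebea

/-! ### Shortest odd closed walks -/

/-- a graph that is not 2-colourable has an induced odd cycle -/
theorem odd_cycle {F : SimpleGraph U} (h2 : ¬ F.Colorable 2) :
    ∃ (m : ℕ) (a : ZMod m → U), Odd m ∧ 3 ≤ m ∧ Function.Injective a ∧
      ∀ i j, F.Adj (a i) (a j) ↔ j = i + 1 ∨ i = j + 1 := by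
  classical
  rw [SimpleGraph.two_colorable_iff_forall_loop_even] at h2
  push Not at h2
  have hex : ∃ m, Odd m ∧ ∃ (u : U) (w : F.Walk u u), w.length = m := by
    obtain ⟨u, w, hw⟩ := h2
    exact ⟨w.length, Nat.not_even_iff_odd.1 hw, u, w, rfl⟩
  obtain ⟨hodd, u, w, hw⟩ := Nat.find_spec hex
  have hmin : ∀ (v : U) (w' : F.Walk v v), Odd w'.length → Nat.find hex ≤ w'.length :=
    fun v w' hw' => Nat.find_min' hex ⟨hw', v, w', rfl⟩
  generalize Nat.find hex = m at *
  have hm3 : 3 ≤ m := by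
    obtain ⟨t, ht⟩ := hodd
    rcases Nat.eq_zero_or_pos t with rfl | ht0
    · exfalso
      have h1 : w.length = 1 := by omega
      have := SimpleGraph.Walk.adj_of_length_eq_one h1
      exact F.irrefl this
    · omega
  have : NeZero m := ⟨by omega⟩
  -- distances along the walk
  have hne : ∀ p q : ℕ, p < q → q < m → w.getVert p ≠ w.getVert q := by
    intro p q hpq hqm e
    have e1 : (w.drop p).getVert (q - p) = w.getVert p := by
      rw [SimpleGraph.Walk.drop_getVert, e]
      congr 1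
      omega
    have l1 : (((w.drop p).take (q - p)).copy rfl e1).length = q - p := by
      rw [SimpleGraph.Walk.length_copy, SimpleGraph.Walk.take_length,
        SimpleGraph.Walk.drop_length]
      omega
    have l2 : ((w.take p).append ((w.drop q).copy e.symm rfl)).length = p + (m - q) := by
      rw [SimpleGraph.Walk.length_append, SimpleGraph.Walk.length_copy,
        SimpleGraph.Walk.take_length, SimpleGraph.Walk.drop_length]
      omega
    rcases Nat.even_or_odd (q - p) with h | h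
    · have h3 : Odd (p + (m - q)) := by
        have h4 : p + (m - q) = m - (q - p) := by omega
        rw [h4]
        exact Nat.Odd.sub_even (by omega) hodd h
      have := hmin _ _ (l2 ▸ h3)
      omega
    · have := hmin _ _ (l1 ▸ h)
      omega
  have hnadj : ∀ p q : ℕ, p < q → q < m → F.Adj (w.getVert p) (w.getVert q) →
      q = p + 1 ∨ (p = 0 ∧ q + 1 = m) := by
    intro p q hpq hqm hadj
    by_contra hcon
    push Not at hcon
    have e1 : (w.drop p).getVert (q - p) = w.getVert q := by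
      rw [SimpleGraph.Walk.drop_getVert]
      congr 1
      omega
    have l1 : (SimpleGraph.Walk.cons hadj.symm
        (((w.drop p).take (q - p)).copy rfl e1)).length = q - p + 1 := by
      rw [SimpleGraph.Walk.length_cons, SimpleGraph.Walk.length_copy,
        SimpleGraph.Walk.take_length, SimpleGraph.Walk.drop_length]
      omega
    have l2 : ((w.take p).append (SimpleGraph.Walk.cons hadj (w.drop q))).length =
        p + (m - q + 1) := by
      rw [SimpleGraph.Walk.length_append, SimpleGraph.Walk.length_cons,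
        SimpleGraph.Walk.take_length, SimpleGraph.Walk.drop_length]
      omega
    rcases Nat.even_or_odd (q - p + 1) with h | h
    · have h3 : Odd (p + (m - q + 1)) := by
        have h4 : p + (m - q + 1) + (q - p + 1) = m + 2 := by omega
        by_contra h5
        rw [Nat.not_odd_iff_even] at h5
        have h6 := h5.add h
        rw [h4] at h6
        have h7 : Odd (m + 2) := hodd.add_even (by norm_num)
        exact Nat.not_even_iff_odd.2 h7 h6
      have h8 := hmin _ _ (l2 ▸ h3)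
      omega
    · have h8 := hmin _ _ (l1 ▸ h)
      by_cases h9 : p = 0
      · have := hcon.2 h9
        omega
      · omega
  have hstep : ∀ i : ZMod m, F.Adj (w.getVert i.val) (w.getVert (i + 1).val) := by
    intro i
    have hi := ZMod.val_lt i
    rcases (show i.val + 1 < m ∨ i.val + 1 = m by omega) with h | h
    · have e : (i + 1).val = i.val + 1 := by
        rw [ZMod.val_add, ZMod.val_one'' (by omega), Nat.mod_eq_of_lt h]
      rw [e]
      exact w.adj_getVert_succ (by omega)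
    · have e : (i + 1).val = 0 := by
        rw [ZMod.val_add, ZMod.val_one'' (by omega), h, Nat.mod_self]
      rw [e]
      have h1 := w.adj_getVert_succ (i := i.val) (by omega)
      have h2 : w.getVert m = u := by
        have := w.getVert_length
        rwa [hw] at this
      rw [h, h2] at h1
      rw [SimpleGraph.Walk.getVert_zero]
      exact h1
  refine ⟨m, fun i => w.getVert i.val, hodd, hm3, ?_, ?_⟩
  · intro i j hij
    simp only at hij
    by_contra hne'
    have hv : i.val ≠ j.val := fun e => hne' (ZMod.val_injective m e)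
    rcases Nat.lt_or_gt_of_ne hv with h | h
    · exact hne _ _ h (ZMod.val_lt j) hij
    · exact hne _ _ h (ZMod.val_lt i) hij.symm
  · have key : ∀ i j : ZMod m, i.val < j.val → F.Adj (w.getVert i.val) (w.getVert j.val) →
        j = i + 1 ∨ i = j + 1 := by
      intro i j hlt hadj
      rcases hnadj _ _ hlt (ZMod.val_lt j) hadj with h | ⟨h, h'⟩
      · left
        apply ZMod.val_injective m
        have hj := ZMod.val_lt j
        rw [ZMod.val_add, ZMod.val_one'' (by omega), Nat.mod_eq_of_lt (by omega), h]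
      · right
        apply ZMod.val_injective m
        rw [ZMod.val_add, ZMod.val_one'' (by omega), h', Nat.mod_self, h]
    intro i j
    constructor
    · intro hadj
      simp only at hadj
      have hv : i.val ≠ j.val := by
        intro e
        rw [e] at hadj
        exact F.irrefl hadj
      rcases Nat.lt_or_gt_of_ne hv with h | h
      · exact key i j h hadj
      · rcases key j i h hadj.symm with h' | h'
        · exact Or.inr h'
        · exact Or.inl h'
    · rintro (rfl | rfl)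
      · exact hstep i
      · exact (hstep j).symm

end MP7bd86d
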