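import Mathlib

/-!
Clique cutsets in minimally non-2-divisible graphs (Hoang, McDiarmid): what the two sides of a
clique cutset must look like.
-/

set_option autoImplicit false

namespace MP7bd86d

variable {V : Type*}

/-- `k`-divisibility -/
def KDivisible (k : ℕ) (G : SimpleGraph V) : Prop :=
  ∀ S : Set V, (∃ a ∈ S, ∃ b ∈ S, G.Adj a b) →
    ∃ f : S → Fin k, ∀ i : Fin k, ∀ K : Finset S,
      (G.induce S).IsNClique (G.induce S).cliqueNum K → ¬ ∀ x ∈ K, f x = i

/-- minimally non-2-divisible -/
def MinNonTwoDivisible (G : SimpleGraph V) : Prop :=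
  ¬ KDivisible 2 G ∧ ∀ S : Set V, S ≠ Set.univ → KDivisible 2 (G.induce S)

/-- there is a clique with `n` vertices inside `S` -/
def HasC (G : SimpleGraph V) (S : Set V) (n : ℕ) : Prop :=
  ∃ K : Finset V, (∀ x ∈ K, x ∈ S) ∧ G.IsNClique n K

/-- the colouring `f` has no monochromatic clique with `n` vertices inside `S` -/
def Nice (G : SimpleGraph V) (S : Set V) (n : ℕ) (f : V → Bool) : Prop :=
  ∀ K : Finset V, (∀ x ∈ K, x ∈ S) → G.IsNClique n K → ∀ b : Bool, ¬ ∀ x ∈ K, f x = b

lemma hasC_mono {G : SimpleGraph V} {S : Set V} {m n : ℕ} (h : m ≤ n) (hc : HasC G S n) :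
    HasC G S m := by
  obtain ⟨K, hK, hn⟩ := hc
  obtain ⟨L, hL, hm⟩ := Finset.exists_subset_card_eq (hn.card_eq.symm ▸ h : m ≤ K.card)
  exact ⟨L, fun x hx => hK x (hL hx), hn.isClique.subset (by exact_mod_cast hL), hm⟩

lemma hasC_induce_iff {G : SimpleGraph V} {S : Set V} {n : ℕ} :
    HasC G S n ↔ ∃ K : Finset S, (G.induce S).IsNClique n K := by
  classical
  constructor
  · rintro ⟨K, hK, hn⟩
    refine ⟨K.subtype (· ∈ S), ?_⟩
    refine ⟨?_, ?_⟩
    · intro a ha b hb hab
      have ha' : (a : V) ∈ K := by simpa using ha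
      have hb' : (b : V) ∈ K := by simpa using hb
      exact hn.isClique ha' hb' (fun e => hab (Subtype.ext e))
    · rw [Finset.card_subtype, Finset.filter_true_of_mem (fun x hx => hK x hx)]
      exact hn.card_eq
  · rintro ⟨K, hn⟩
    refine ⟨K.map (Function.Embedding.subtype _), ?_, ?_, ?_⟩
    · intro x hx
      rw [Finset.mem_map] at hx
      obtain ⟨y, -, rfl⟩ := hx
      exact y.2
    · intro a ha b hb hab
      simp only [Finset.coe_map, Function.Embedding.subtype_apply, Set.mem_image,
        Finset.mem_coe] at ha hb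
      obtain ⟨a, ha, rfl⟩ := ha
      obtain ⟨b, hb, rfl⟩ := hb
      exact hn.isClique ha hb (fun e => hab (by rw [e]))
    · rw [Finset.card_map]
      exact hn.card_eq

variable [Finite V]

lemma hasC_cliqueNum {G : SimpleGraph V} {S : Set V} {n : ℕ} :
    HasC G S n ↔ n ≤ (G.induce S).cliqueNum := by
  rw [hasC_induce_iff]
  constructor
  · rintro ⟨K, hn⟩
    rw [← hn.card_eq]
    exact SimpleGraph.IsClique.card_le_cliqueNum (tc := hn.isClique)
  · intro h
    obtain ⟨K, hK⟩ := (G.induce S).exists_isNClique_cliqueNum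
    exact hasC_induce_iff.1 (hasC_mono h (hasC_induce_iff.2 ⟨K, hK⟩))

lemma hasC_univ {G : SimpleGraph V} {n : ℕ} : HasC G Set.univ n ↔ n ≤ G.cliqueNum := by
  constructor
  · rintro ⟨K, -, hn⟩
    rw [← hn.card_eq]
    exact SimpleGraph.IsClique.card_le_cliqueNum (tc := hn.isClique)
  · intro h
    obtain ⟨K, hK⟩ := G.exists_isNClique_cliqueNum
    exact hasC_mono h ⟨K, fun x _ => Set.mem_univ x, hK⟩

/-- the working form of 2-divisibility -/
lemma kdiv_iff {G : SimpleGraph V} : KDivisible 2 G ↔
    ∀ (S : Set V) (n : ℕ), 2 ≤ n → ¬ HasC G S (n + 1) → ∃ f : V → Bool, Nice G S n f := by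
  classical
  constructor
  · intro h S n hn hS
    by_cases hc : HasC G S n
    · have e : (G.induce S).cliqueNum = n := by
        have h1 := hasC_cliqueNum.1 hc
        by_contra h2
        exact hS (hasC_cliqueNum.2 (by omega))
      obtain ⟨K, hK, hKn⟩ := hc
      obtain ⟨a, ha, b, hb, hab⟩ := Finset.one_lt_card.1 (hKn.card_eq.symm ▸ hn : 1 < K.card)
      obtain ⟨f, hf⟩ := h S ⟨a, hK a ha, b, hK b hb, hKn.isClique ha hb hab⟩
      refine ⟨fun x => if hx : x ∈ S then decide (f ⟨x, hx⟩ = 1) else true, ?_⟩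
      intro L hL hLn c hc
      rw [e] at hf
      have hL2 : (G.induce S).IsNClique n (L.subtype (· ∈ S)) := by
        refine ⟨?_, ?_⟩
        · intro a ha b hb hab
          have ha' : (a : V) ∈ L := by simpa using ha
          have hb' : (b : V) ∈ L := by simpa using hb
          exact hLn.isClique ha' hb' (fun e => hab (Subtype.ext e))
        · rw [Finset.card_subtype, Finset.filter_true_of_mem (fun x hx => hL x hx)]
          exact hLn.card_eq
      refine hf (if c then 1 else 0) _ hL2 ?_
      intro x hx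
      have hx' : (x : V) ∈ L := by simpa using hx
      have h3 := hc x hx'
      simp only [x.2, dite_true] at h3
      cases c
      · simp only [decide_eq_false_iff_not] at h3
        have : ∀ y : Fin 2, y ≠ 1 → y = 0 := by decide
        simpa using this _ h3
      · simpa using h3
    · exact ⟨fun _ => true, fun K hK hKn b _ => hc ⟨K, hK, hKn⟩⟩
  · intro h S hS
    obtain ⟨a, ha, b, hb, hab⟩ := hS
    have h2 : 2 ≤ (G.induce S).cliqueNum := by
      rw [← hasC_cliqueNum]
      refine ⟨{a, b}, ?_, ?_, ?_⟩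
      · intro x hx
        simp only [Finset.mem_insert, Finset.mem_singleton] at hx
        rcases hx with rfl | rfl
        · exact ha
        · exact hb
      · intro x hx y hy hxy
        simp only [Finset.coe_insert, Finset.coe_singleton, Set.mem_insert_iff,
          Set.mem_singleton_iff] at hx hy
        rcases hx with rfl | rfl <;> rcases hy with rfl | rfl
        · exact absurd rfl hxy
        · exact hab
        · exact hab.symm
        · exact absurd rfl hxy
      · rw [Finset.card_pair hab.ne]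
    obtain ⟨f, hf⟩ := h S _ h2 (by rw [hasC_cliqueNum]; omega)
    refine ⟨fun x => if f x then 1 else 0, ?_⟩
    intro i K hK hi
    refine hf (K.map (Function.Embedding.subtype _)) ?_ ⟨?_, ?_⟩ (decide (i = 1)) ?_
    · intro x hx
      rw [Finset.mem_map] at hx
      obtain ⟨y, -, rfl⟩ := hx
      exact y.2
    · intro a ha b hb hab
      simp only [Finset.coe_map, Function.Embedding.subtype_apply, Set.mem_image,
        Finset.mem_coe] at ha hb
      obtain ⟨a, ha, rfl⟩ := ha
      obtain ⟨b, hb, rfl⟩ := hb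
      exact hK.isClique ha hb (fun e => hab (by rw [e]))
    · rw [Finset.card_map]
      exact hK.card_eq
    · intro x hx
      rw [Finset.mem_map] at hx
      obtain ⟨y, hy, rfl⟩ := hx
      have h3 := hi y hy
      simp only [Function.Embedding.subtype_apply]
      rw [← h3]
      cases e : f (y : V) <;> simp [e]

/-- 2-divisibility of an induced subgraph in terms of the graph -/
lemma kdiv_induce {G : SimpleGraph V} {T : Set V} (h : KDivisible 2 (G.induce T)) {S : Set V}
    (hS : S ⊆ T) {n : ℕ} (hn : 2 ≤ n) (hc : ¬ HasC G S (n + 1)) : ∃ f : V → Bool, Nice G S n f := by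
  classical
  have h1 := kdiv_iff.1 h ((↑) ⁻¹' S) n hn (by
    rintro ⟨K, hK, hKn⟩
    apply hc
    refine ⟨K.map (Function.Embedding.subtype _), ?_, ?_, ?_⟩
    · intro x hx
      rw [Finset.mem_map] at hx
      obtain ⟨y, hy, rfl⟩ := hx
      exact hK y hy
    · intro a ha b hb hab
      simp only [Finset.coe_map, Function.Embedding.subtype_apply, Set.mem_image,
        Finset.mem_coe] at ha hb
      obtain ⟨a, ha, rfl⟩ := ha
      obtain ⟨b, hb, rfl⟩ := hb
      exact hKn.isClique ha hb (fun e => hab (by rw [e]))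
    · rw [Finset.card_map]
      exact hKn.card_eq)
  obtain ⟨f, hf⟩ := h1
  refine ⟨fun x => if hx : x ∈ T then f ⟨x, hx⟩ else true, ?_⟩
  intro K hK hKn b hb
  refine hf (K.subtype (· ∈ T)) ?_ ⟨?_, ?_⟩ b ?_
  · intro x hx
    have hx' : (x : V) ∈ K := by simpa using hx
    exact hK _ hx'
  · intro a ha b hb hab
    have ha' : (a : V) ∈ K := by simpa using ha
    have hb' : (b : V) ∈ K := by simpa using hb
    exact hKn.isClique ha' hb' (fun e => hab (Subtype.ext e))
  · rw [Finset.card_subtype, Finset.filter_true_of_mem (fun x hx => hS (hK x hx))]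
    exact hKn.card_eq
  · intro x hx
    have hx' : (x : V) ∈ K := by simpa using hx
    have h3 := hb x hx'
    simp only [x.2, dite_true] at h3
    exact h3


/-! ### The two sides of a clique cutset -/

/-- `A` is a union of components of `G - C`, neither empty nor everything -/
structure IsSide (G : SimpleGraph V) (C A : Set V) : Prop where
  sub : A ⊆ Cᶜ
  ne : A.Nonempty
  ne' : (Cᶜ \ A).Nonempty
  adj : ∀ a ∈ A, ∀ b ∈ Cᶜ \ A, ¬ G.Adj a b

omit [Finite V] in
/-- a clique lies in `A ∪ C` or outside `A` -/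
lemma IsSide.clique {G : SimpleGraph V} {C A : Set V} (h : IsSide G C A) {K : Finset V}
    (hK : G.IsClique K) : (∀ x ∈ K, x ∈ A ∪ C) ∨ (∀ x ∈ K, x ∈ Aᶜ) := by
  by_contra hc
  push Not at hc
  obtain ⟨⟨x, hx, hx'⟩, ⟨y, hy, hy'⟩⟩ := hc
  have hyA : y ∈ A := by simpa using hy'
  have hxA : x ∈ Cᶜ \ A := ⟨fun h' => hx' (Or.inr h'), fun h' => hx' (Or.inl h')⟩
  have hne : y ≠ x := fun e => hxA.2 (e ▸ hyA)
  exact h.adj y hyA x hxA (hK hy hx hne)

/-- basic facts on a minimally non-2-divisible graph -/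
lemma min_two {G : SimpleGraph V} (h : MinNonTwoDivisible G) : 2 ≤ G.cliqueNum := by
  by_contra hc
  apply h.1
  rw [kdiv_iff]
  intro S n hn _
  refine ⟨fun _ => true, fun K hK hKn b _ => ?_⟩
  have : n ≤ G.cliqueNum := hasC_univ.1 ⟨K, fun x _ => Set.mem_univ x, hKn⟩
  omega

lemma min_proper {G : SimpleGraph V} (h : MinNonTwoDivisible G) {S : Set V} (hS : S ≠ Set.univ)
    {n : ℕ} (hn : 2 ≤ n) (hc : ¬ HasC G S (n + 1)) : ∃ f : V → Bool, Nice G S n f :=
  kdiv_induce (h.2 S hS) subset_rfl hn hc

lemma min_not {G : SimpleGraph V} (h : MinNonTwoDivisible G) {f : V → Bool} :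
    ¬ Nice G Set.univ G.cliqueNum f := by
  intro hf
  apply h.1
  rw [kdiv_iff]
  intro S n hn hS
  by_cases e : S = Set.univ
  · subst e
    by_cases hn' : n = G.cliqueNum
    · exact ⟨f, hn' ▸ hf⟩
    · refine ⟨fun _ => true, fun K hK hKn b _ => ?_⟩
      have h1 : n ≤ G.cliqueNum := hasC_univ.1 ⟨K, fun x _ => Set.mem_univ x, hKn⟩
      exact hS (hasC_univ.2 (by omega))
  · exact min_proper h e hn hS

lemma min_good {G : SimpleGraph V} (h : MinNonTwoDivisible G) {S : Set V} (hS : S ≠ Set.univ) :
    ∃ f : V → Bool, Nice G S G.cliqueNum f := by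
  refine min_proper h hS (min_two h) ?_
  rintro ⟨K, -, hK⟩
  have : G.cliqueNum + 1 ≤ G.cliqueNum := hasC_univ.1 ⟨K, fun x _ => Set.mem_univ x, hK⟩
  omega

/-- gluing -/
lemma min_glue {G : SimpleGraph V} (h : MinNonTwoDivisible G) {C A : Set V} (hs : IsSide G C A)
    {f g : V → Bool} (hf : Nice G (A ∪ C) G.cliqueNum f) (hg : Nice G Aᶜ G.cliqueNum g)
    (e : ∀ x ∈ C, f x = g x) : False := by
  classical
  refine min_not h (f := fun x => if x ∈ A then f x else g x) ?_
  intro K _ hK b hb
  rcases hs.clique hK.isClique with hA | hA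
  · refine hf K hA hK b (fun x hx => ?_)
    have h1 := hb x hx
    by_cases hxA : x ∈ A
    · simpa [hxA] using h1
    · have hxC : x ∈ C := (hA x hx).resolve_left hxA
      simp only [hxA, if_false] at h1
      rw [e x hxC, h1]
  · refine hg K hA hK b (fun x hx => ?_)
    have h1 := hb x hx
    have hxA : x ∉ A := hA x hx
    simpa [hxA] using h1

/-! ### Extension of a splitting of the cutset -/

/-- number of elements of `K` with the colour `b` -/
lemma group_colours {G : SimpleGraph V} {Z : Set V} {m T1 T2 : ℕ} (κ : (G.induce Z).Coloring (Fin m))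
    {C : Set V} (hC : G.IsClique C) (hCZ : C ⊆ Z) {g : V → Bool}
    (h1 : {x | x ∈ C ∧ g x = true}.ncard ≤ T1) (h2 : {x | x ∈ C ∧ g x = false}.ncard ≤ T2)
    (hm : m ≤ T1 + T2) :
    ∃ f : V → Bool, (∀ x ∈ C, f x = g x) ∧
      (∀ K : Finset V, (∀ x ∈ K, x ∈ Z) → G.IsClique K → (∀ x ∈ K, f x = true) → K.card ≤ T1) ∧
      (∀ K : Finset V, (∀ x ∈ K, x ∈ Z) → G.IsClique K → (∀ x ∈ K, f x = false) →
        K.card ≤ T2) := by
  classical
  -- the colours of the two parts of `C`
  let S : Bool → Finset (Fin m) := fun b =>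
    Finset.univ.filter (fun i => ∃ x : Z, (x : V) ∈ C ∧ g x = b ∧ κ x = i)
  have hinj : ∀ x y : Z, (x : V) ∈ C → (y : V) ∈ C → κ x = κ y → x = y := by
    intro x y hx hy he
    by_contra hne
    have : (G.induce Z).Adj x y := hC hx hy (fun e => hne (Subtype.ext e))
    exact κ.valid this he
  have hcard : ∀ b, (S b).card ≤ {x | x ∈ C ∧ g x = b}.ncard := by
    intro b
    have hfin : ({x | x ∈ C ∧ g x = b} : Set V).Finite := Set.toFinite _
    have hsub : S b ⊆ hfin.toFinset.attach.image (fun x => κ ⟨x.1, hCZ (by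
        have := x.2
        rw [Set.Finite.mem_toFinset] at this
        exact this.1)⟩) := by
      intro i hi
      simp only [S, Finset.mem_filter, Finset.mem_univ, true_and] at hi
      obtain ⟨x, hxC, hxg, hxi⟩ := hi
      rw [Finset.mem_image]
      refine ⟨⟨x.1, by rw [Set.Finite.mem_toFinset]; exact ⟨hxC, hxg⟩⟩, Finset.mem_attach _ _, hxi⟩
    refine (Finset.card_le_card hsub).trans (Finset.card_image_le.trans ?_)
    rw [Finset.card_attach, ← Set.ncard_eq_toFinset_card _ hfin]
  have hdisj : Disjoint (S true) (S false) := by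
    rw [Finset.disjoint_left]
    intro i hi hi'
    simp only [S, Finset.mem_filter, Finset.mem_univ, true_and] at hi hi'
    obtain ⟨x, hxC, hxg, hxi⟩ := hi
    obtain ⟨y, hyC, hyg, hyi⟩ := hi'
    have := hinj x y hxC hyC (hxi.trans hyi.symm)
    subst this
    rw [hxg] at hyg
    exact absurd hyg (by decide)
  have hS1 : (S true).card ≤ T1 := (hcard true).trans h1
  have hS2 : (S false).card ≤ T2 := (hcard false).trans h2
  have hsum : (S true).card + (S false).card ≤ m := by
    have := Finset.card_union_of_disjoint hdisj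
    have h3 : (S true ∪ S false).card ≤ m := (Finset.card_le_univ _).trans (by simp)
    omega
  have hcompl : ((S false)ᶜ).card = m - (S false).card := by
    rw [Finset.card_compl, Fintype.card_fin]
  have hle : S true ⊆ (S false)ᶜ := by
    rw [Finset.subset_compl_comm]
    intro i hi
    rw [Finset.mem_compl]
    intro hi'
    exact Finset.disjoint_left.1 hdisj hi' hi
  obtain ⟨Γ, hΓ1, hΓ2, hΓ3⟩ := Finset.exists_subsuperset_card_eq hle
    (n := min T1 (m - (S false).card)) (by omega) (by omega)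
  have hΓc : (Γᶜ).card ≤ T2 := by
    rw [Finset.card_compl, Fintype.card_fin, hΓ3]
    omega
  refine ⟨fun x => if hx : x ∈ Z then decide (κ ⟨x, hx⟩ ∈ Γ) else true, ?_, ?_, ?_⟩
  · intro x hx
    have hxZ := hCZ hx
    simp only [hxZ, dite_true]
    cases hg : g x
    · rw [decide_eq_false_iff_not]
      intro hmem
      have h5 : κ ⟨x, hxZ⟩ ∈ S false := by
        simp only [S, Finset.mem_filter, Finset.mem_univ, true_and]
        exact ⟨⟨x, hxZ⟩, hx, hg, rfl⟩
      exact Finset.mem_compl.1 (hΓ2 hmem) h5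
    · rw [decide_eq_true_iff]
      apply hΓ1
      simp only [S, Finset.mem_filter, Finset.mem_univ, true_and]
      exact ⟨⟨x, hxZ⟩, hx, hg, rfl⟩
  · intro K hK hcl hKt
    have hsub : (K.subtype (· ∈ Z)).image κ ⊆ Γ := by
      intro i hi
      rw [Finset.mem_image] at hi
      obtain ⟨x, hx, rfl⟩ := hi
      have hx' : (x : V) ∈ K := by simpa using hx
      have := hKt x hx'
      simpa [x.2] using this
    have h6 : ((K.subtype (· ∈ Z)).image κ).card = K.card := by
      rw [Finset.card_image_of_injOn, Finset.card_subtype,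
        Finset.filter_true_of_mem (fun x hx => hK x hx)]
      intro x hx y hy he
      by_contra hne
      have hx' : (x : V) ∈ K := by simpa using hx
      have hy' : (y : V) ∈ K := by simpa using hy
      have : (G.induce Z).Adj x y := hcl hx' hy' (fun e => hne (Subtype.ext e))
      exact κ.valid this he
    have := Finset.card_le_card hsub
    omega
  · intro K hK hcl hKt
    have hsub : (K.subtype (· ∈ Z)).image κ ⊆ Γᶜ := by
      intro i hi
      rw [Finset.mem_image] at hi
      obtain ⟨x, hx, rfl⟩ := hi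
      have hx' : (x : V) ∈ K := by simpa using hx
      have := hKt x hx'
      simpa [x.2] using this
    have h6 : ((K.subtype (· ∈ Z)).image κ).card = K.card := by
      rw [Finset.card_image_of_injOn, Finset.card_subtype,
        Finset.filter_true_of_mem (fun x hx => hK x hx)]
      intro x hx y hy he
      by_contra hne
      have hx' : (x : V) ∈ K := by simpa using hx
      have hy' : (y : V) ∈ K := by simpa using hy
      have : (G.induce Z).Adj x y := hcl hx' hy' (fun e => hne (Subtype.ext e))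
      exact κ.valid this he
    have := Finset.card_le_card hsub
    omega

/-- a splitting of `C` extends to a side when a part `Z` of it is coloured -/
lemma extend_core {G : SimpleGraph V} {W Z : Set V} {m T1 T2 ρ1 ρ2 : ℕ}
    (κ : (G.induce Z).Coloring (Fin m)) {C : Set V} (hC : G.IsClique C) (hCZ : C ⊆ Z)
    {g : V → Bool} (h1 : {x | x ∈ C ∧ g x = true}.ncard ≤ T1)
    (h2 : {x | x ∈ C ∧ g x = false}.ncard ≤ T2) (hm : m ≤ T1 + T2) {f0 : V → Bool}
    (hr1 : ∀ K : Finset V, (∀ x ∈ K, x ∈ W \ Z) → G.IsClique K → (∀ x ∈ K, f0 x = true) →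
      K.card ≤ ρ1)
    (hr2 : ∀ K : Finset V, (∀ x ∈ K, x ∈ W \ Z) → G.IsClique K → (∀ x ∈ K, f0 x = false) →
      K.card ≤ ρ2) {n : ℕ} (hn1 : T1 + ρ1 < n) (hn2 : T2 + ρ2 < n) :
    ∃ f : V → Bool, (∀ x ∈ C, f x = g x) ∧ Nice G W n f := by
  classical
  obtain ⟨f, hf, hf1, hf2⟩ := group_colours κ hC hCZ h1 h2 hm
  refine ⟨fun x => if x ∈ Z then f x else f0 x, fun x hx => by simp [hCZ hx, hf x hx], ?_⟩
  intro K hK hKn b hb
  have hsplit : (K.filter (· ∈ Z)).card + (K.filter (fun x => ¬ x ∈ Z)).card = K.card :=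
    Finset.card_filter_add_card_filter_not _
  have hcl1 : G.IsClique (K.filter (· ∈ Z) : Finset V) :=
    hKn.isClique.subset (by exact_mod_cast Finset.filter_subset _ _)
  have hcl2 : G.IsClique (K.filter (fun x => ¬ x ∈ Z) : Finset V) :=
    hKn.isClique.subset (by exact_mod_cast Finset.filter_subset _ _)
  have hc := hKn.card_eq
  have a1 : ∀ x ∈ K.filter (· ∈ Z), f x = b := by
    intro x hx
    rw [Finset.mem_filter] at hx
    have := hb x hx.1
    simpa [hx.2] using this
  have a2 : ∀ x ∈ K.filter (fun x => ¬ x ∈ Z), f0 x = b := by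
    intro x hx
    rw [Finset.mem_filter] at hx
    have := hb x hx.1
    simpa [hx.2] using this
  have b1 : ∀ x ∈ K.filter (· ∈ Z), x ∈ Z := fun x hx => (Finset.mem_filter.1 hx).2
  have b2 : ∀ x ∈ K.filter (fun x => ¬ x ∈ Z), x ∈ W \ Z := fun x hx =>
    ⟨hK x (Finset.mem_filter.1 hx).1, (Finset.mem_filter.1 hx).2⟩
  cases b
  · have c1 := hf2 _ b1 hcl1 a1
    have c2 := hr2 _ b2 hcl2 a2
    omega
  · have c1 := hf1 _ b1 hcl1 a1
    have c2 := hr1 _ b2 hcl2 a2
    omega

omit [Finite V] in
lemma side_ne_univ {G : SimpleGraph V} {C A : Set V} (hs : IsSide G C A) : A ∪ C ≠ Set.univ := by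
  intro h
  obtain ⟨x, hx, hx'⟩ := hs.ne'
  have : x ∈ A ∪ C := h ▸ Set.mem_univ x
  rcases this with h1 | h1
  · exact hx' h1
  · exact hx h1

omit [Finite V] in
lemma compl_ne_univ {G : SimpleGraph V} {C A : Set V} (hs : IsSide G C A) : Aᶜ ≠ Set.univ := by
  intro h
  obtain ⟨x, hx⟩ := hs.ne
  have : x ∈ Aᶜ := h ▸ Set.mem_univ x
  exact this hx

/-- parts of the cutset in a nice colouring -/
lemma part_lt {G : SimpleGraph V} {C S : Set V} (hC : G.IsClique C) (hCS : C ⊆ S) {n : ℕ}
    {g : V → Bool} (hg : Nice G S n g) (b : Bool) : {x | x ∈ C ∧ g x = b}.ncard < n := by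
  classical
  by_contra hc
  push Not at hc
  have hfin : ({x | x ∈ C ∧ g x = b} : Set V).Finite := Set.toFinite _
  rw [Set.ncard_eq_toFinset_card _ hfin] at hc
  obtain ⟨K, hK, hKc⟩ := Finset.exists_subset_card_eq hc
  refine hg K (fun x hx => ?_) ⟨?_, hKc⟩ b (fun x hx => ?_)
  · have := hK hx
    rw [Set.Finite.mem_toFinset] at this
    exact hCS this.1
  · refine hC.subset (fun x hx => ?_)
    have := hK (Finset.mem_coe.1 hx)
    rw [Set.Finite.mem_toFinset] at this
    exact this.1
  · have := hK hx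
    rw [Set.Finite.mem_toFinset] at this
    exact this.2

/-- the two parts of the cutset -/
lemma parts_add {C : Set V} (g : V → Bool) :
    {x | x ∈ C ∧ g x = true}.ncard + {x | x ∈ C ∧ g x = false}.ncard = C.ncard := by
  rw [← Set.ncard_union_eq]
  · congr 1
    ext x
    constructor
    · rintro (h | h)
      · exact h.1
      · exact h.1
    · intro h
      cases hg : g x
      · exact Or.inr ⟨h, hg⟩
      · exact Or.inl ⟨h, hg⟩
  · rw [Set.disjoint_left]
    rintro x ⟨-, e1⟩ ⟨-, e2⟩
    rw [e1] at e2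
    exact absurd e2 (by decide)

/-- cliques in the rest of a side -/
lemma rest_card {G : SimpleGraph V} {R : Set V} {r : ℕ} (hR : (G.induce R).cliqueNum ≤ r)
    (K : Finset V) (hK : ∀ x ∈ K, x ∈ R) (hcl : G.IsClique K) : K.card ≤ r := by
  have : K.card ≤ (G.induce R).cliqueNum := hasC_cliqueNum.1 ⟨K, hK, hcl, rfl⟩
  omega

omit [Finite V] in
lemma card_zero {b c : Bool} (hbc : b ≠ c) (K : Finset V)
    (h : ∀ x ∈ K, (fun _ : V => b) x = c) : K.card ≤ 0 := by
  rw [Nat.le_zero, Finset.card_eq_zero, Finset.eq_empty_iff_forall_notMem]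
  intro x hx
  exact hbc (h x hx)

/-- a splitting of `C` with a small part extends, the rest goes to the small part -/
lemma extend_small {G : SimpleGraph V} {W Z C : Set V} (hC : G.IsClique C) (hCZ : C ⊆ Z)
    {r m : ℕ} (hR : (G.induce (W \ Z)).cliqueNum ≤ r) (κ : (G.induce Z).Coloring (Fin m))
    {g : V → Bool} (b : Bool) (p1 : {x | x ∈ C ∧ g x = b}.ncard + r < G.cliqueNum)
    (p2 : {x | x ∈ C ∧ g x = !b}.ncard < G.cliqueNum) (hm : m + r ≤ 2 * G.cliqueNum - 2) :
    ∃ f : V → Bool, (∀ x ∈ C, f x = g x) ∧ Nice G W G.cliqueNum f := by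
  cases b
  · exact extend_core (W := W) (Z := Z) (T1 := G.cliqueNum - 1)
      (T2 := G.cliqueNum - 1 - r) (ρ1 := 0) (ρ2 := r) (n := G.cliqueNum) κ hC hCZ
      (g := g) (by simp only [Bool.not_false] at p2; omega) (by omega) (by omega)
      (f0 := fun _ => false)
      (fun K _ _ hf => card_zero (by decide) K hf) (fun K hK hcl _ => rest_card hR K hK hcl)
      (by omega) (by omega)
  · exact extend_core (W := W) (Z := Z) (T1 := G.cliqueNum - 1 - r)
      (T2 := G.cliqueNum - 1) (ρ1 := r) (ρ2 := 0) (n := G.cliqueNum) κ hC hCZ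
      (g := g) (by omega) (by simp only [Bool.not_true] at p2; omega) (by omega)
      (f0 := fun _ => true)
      (fun K hK hcl _ => rest_card hR K hK hcl) (fun K _ _ hf => card_zero (by decide) K hf)
      (by omega) (by omega)

/-- first inequality -/
theorem side_one {G : SimpleGraph V} (h : MinNonTwoDivisible G) {C A : Set V}
    (hC : G.IsClique C) (hs : IsSide G C A) {Z : Set V} (hCZ : C ⊆ Z) {r : ℕ}
    (hR : (G.induce ((A ∪ C) \ Z)).cliqueNum ≤ r) (hr : r + C.ncard / 2 < G.cliqueNum)
    {m : ℕ} (hm : (G.induce Z).Colorable m) : 2 * G.cliqueNum - 2 < m + r := by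
  by_contra hc
  push Not at hc
  obtain ⟨κ⟩ := hm
  have hCA : C ⊆ Aᶜ := fun x hx hx' => hs.sub hx' hx
  obtain ⟨g, hg⟩ := min_good h (compl_ne_univ hs)
  have p1 := part_lt hC hCA hg true
  have p2 := part_lt hC hCA hg false
  have p3 := parts_add (C := C) g
  have key : ∃ f : V → Bool, (∀ x ∈ C, f x = g x) ∧ Nice G (A ∪ C) G.cliqueNum f := by
    by_cases c1 : {x | x ∈ C ∧ g x = true}.ncard ≤ {x | x ∈ C ∧ g x = false}.ncard
    · exact extend_small hC hCZ hR κ true (by omega) (by simpa using p2) hc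
    · exact extend_small hC hCZ hR κ false (by omega) (by simpa using p1) hc
  obtain ⟨f, hf, hf'⟩ := key
  exact min_glue h hs hf' hg hf

/-- one of the two sides satisfies the first inequality without condition on `r` -/
theorem side_two {G : SimpleGraph V} (h : MinNonTwoDivisible G) {C A : Set V}
    (hC : G.IsClique C) (hs : IsSide G C A) (hlt : C.ncard < G.cliqueNum)
    {Z Z' : Set V} (hCZ : C ⊆ Z) (hCZ' : C ⊆ Z') {r r' : ℕ}
    (hR : (G.induce ((A ∪ C) \ Z)).cliqueNum ≤ r) (hR' : (G.induce (Aᶜ \ Z')).cliqueNum ≤ r')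
    (hr : r < G.cliqueNum) (hr' : r' < G.cliqueNum) {m m' : ℕ} (hm : (G.induce Z).Colorable m)
    (hm' : (G.induce Z').Colorable m') :
    2 * G.cliqueNum - 2 < m + r ∨ 2 * G.cliqueNum - 2 < m' + r' := by
  by_contra hc
  push Not at hc
  obtain ⟨κ⟩ := hm
  obtain ⟨κ'⟩ := hm'
  have e0 : {x | x ∈ C ∧ (fun _ : V => true) x = false} = ∅ := by
    ext x
    simp
  have e1 : {x | x ∈ C ∧ (fun _ : V => true) x = true} = C := by
    ext x
    simp
  obtain ⟨f, hf, hf'⟩ := extend_small (W := A ∪ C) (g := fun _ => true) hC hCZ hR κ false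
    (by rw [e0, Set.ncard_empty]; omega) (by rw [Bool.not_false, e1]; exact hlt) hc.1
  obtain ⟨f', hf1, hf1'⟩ := extend_small (W := Aᶜ) (g := fun _ => true) hC hCZ' hR' κ' false
    (by rw [e0, Set.ncard_empty]; omega) (by rw [Bool.not_false, e1]; exact hlt) hc.2
  exact min_glue h hs hf' hf1' (fun x hx => (hf x hx).trans (hf1 x hx).symm)

lemma clique_ncard_le {G : SimpleGraph V} {C : Set V} (hC : G.IsClique C) :
    C.ncard ≤ G.cliqueNum := by
  have hfin : C.Finite := Set.toFinite _
  rw [Set.ncard_eq_toFinset_card _ hfin]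
  exact SimpleGraph.IsClique.card_le_cliqueNum (t := hfin.toFinset) (tc := by
    rw [Set.Finite.coe_toFinset]; exact hC)

/-- no side is `(2 ω - 2)`-colourable -/
theorem side_not_colorable {G : SimpleGraph V} (h : MinNonTwoDivisible G) {C A : Set V}
    (hC : G.IsClique C) (hs : IsSide G C A) :
    ¬ (G.induce (A ∪ C)).Colorable (2 * G.cliqueNum - 2) := by
  intro hm
  have h2 := min_two h
  have h3 := clique_ncard_le hC
  have hR : (G.induce ((A ∪ C) \ (A ∪ C))).cliqueNum ≤ 0 := by
    by_contra hc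
    push Not at hc
    obtain ⟨K, hK, hKn⟩ := hasC_cliqueNum.2 (show 1 ≤ _ from hc)
    obtain ⟨x, hx⟩ := Finset.card_pos.1 (by rw [hKn.card_eq]; norm_num : 0 < K.card)
    exact (hK x hx).2 (hK x hx).1
  have := side_one h hC hs Set.subset_union_right hR (by omega) hm
  omega

/-- the general inequality -/
theorem side_general {G : SimpleGraph V} (h : MinNonTwoDivisible G) {C A : Set V}
    (hC : G.IsClique C) (h2C : 2 ≤ C.ncard) (hs : IsSide G C A) {Z : Set V} (hCZ : C ⊆ Z)
    {r : ℕ} (hr : 2 ≤ r) (hR : (G.induce ((A ∪ C) \ Z)).cliqueNum ≤ r)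
    {m : ℕ} (hm : (G.induce Z).Colorable m) : 2 * G.cliqueNum < m + 2 * r := by
  classical
  by_contra hc
  push Not at hc
  obtain ⟨κ⟩ := hm
  have h2 := min_two h
  have hCA : C ⊆ Aᶜ := fun x hx hx' => hs.sub hx' hx
  obtain ⟨g, hg⟩ := min_good h (compl_ne_univ hs)
  have p1 := part_lt hC hCA hg true
  have p2 := part_lt hC hCA hg false
  have p3 := parts_add (C := C) g
  -- the clique `C` needs `|C|` colours
  have hCm : C.ncard ≤ m := by
    have hfin : C.Finite := Set.toFinite _
    have hinj : Function.Injective (fun x : hfin.toFinset => κ ⟨x.1, hCZ (by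
        have := x.2
        rwa [Set.Finite.mem_toFinset] at this)⟩) := by
      intro x y he
      by_contra hne
      have hx : (x : V) ∈ C := by
        have := x.2
        rwa [Set.Finite.mem_toFinset] at this
      have hy : (y : V) ∈ C := by
        have := y.2
        rwa [Set.Finite.mem_toFinset] at this
      have hadj : G.Adj x y := hC hx hy (fun e => hne (Subtype.ext e))
      exact κ.valid (v := ⟨x.1, hCZ hx⟩) (w := ⟨y.1, hCZ hy⟩) hadj he
    have := Fintype.card_le_of_injective _ hinj
    rw [Fintype.card_fin, Fintype.card_coe, ← Set.ncard_eq_toFinset_card _ hfin] at this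
    exact this
  have hRc : ∀ K : Finset V, (∀ x ∈ K, x ∈ (A ∪ C) \ Z) → G.IsClique K → K.card ≤ r := by
    intro K hK hcl
    have : K.card ≤ (G.induce ((A ∪ C) \ Z)).cliqueNum := hasC_cliqueNum.1 ⟨K, hK, hcl, rfl⟩
    omega
  have hRne : (A ∪ C) \ Z ≠ Set.univ := by
    intro e
    apply side_ne_univ hs
    rw [Set.eq_univ_iff_forall] at e ⊢
    exact fun x => (e x).1
  -- case distinction
  have key : ∃ f : V → Bool, (∀ x ∈ C, f x = g x) ∧ Nice G (A ∪ C) G.cliqueNum f := by
    by_cases c1 : {x | x ∈ C ∧ g x = true}.ncard + 1 + r ≤ G.cliqueNum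
    · refine extend_core (W := A ∪ C) (Z := Z) (T1 := G.cliqueNum - 1 - r)
        (T2 := G.cliqueNum - 1) (ρ1 := r) (ρ2 := 0) (n := G.cliqueNum) κ hC hCZ
        (g := g) (by omega) (by omega) (by omega) (f0 := fun _ => true)
        (fun K hK hcl _ => hRc K hK hcl) ?_ (by omega) (by omega)
      intro K hK _ hf
      rw [Nat.le_zero, Finset.card_eq_zero, Finset.eq_empty_iff_forall_notMem]
      intro x hx
      exact absurd (hf x hx) (by decide)
    · by_cases c2 : {x | x ∈ C ∧ g x = false}.ncard + 1 + r ≤ G.cliqueNum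
      · refine extend_core (W := A ∪ C) (Z := Z) (T1 := G.cliqueNum - 1)
          (T2 := G.cliqueNum - 1 - r) (ρ1 := 0) (ρ2 := r) (n := G.cliqueNum) κ hC hCZ
          (g := g) (by omega) (by omega) (by omega) (f0 := fun _ => false)
          ?_ (fun K hK hcl _ => hRc K hK hcl) (by omega) (by omega)
        intro K hK _ hf
        rw [Nat.le_zero, Finset.card_eq_zero, Finset.eq_empty_iff_forall_notMem]
        intro x hx
        exact absurd (hf x hx) (by decide)
      · -- both parts are large: split the rest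
        obtain ⟨f0, hf0⟩ := min_proper h hRne hr (by
          rintro ⟨K, hK, hKn⟩
          have := hRc K hK hKn.isClique
          have := hKn.card_eq
          omega)
        have hf0' : ∀ (b : Bool) (K : Finset V), (∀ x ∈ K, x ∈ (A ∪ C) \ Z) → G.IsClique K →
            (∀ x ∈ K, f0 x = b) → K.card ≤ r - 1 := by
          intro b K hK hcl hb
          by_contra hlt
          push Not at hlt
          obtain ⟨L, hL, hLc⟩ := Finset.exists_subset_card_eq (show r ≤ K.card by omega)
          exact hf0 L (fun x hx => hK x (hL hx)) ⟨hcl.subset (by exact_mod_cast hL), hLc⟩ b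
            (fun x hx => hb x (hL hx))
        exact extend_core (W := A ∪ C) (Z := Z) (T1 := G.cliqueNum - r)
          (T2 := G.cliqueNum - r) (ρ1 := r - 1) (ρ2 := r - 1) (n := G.cliqueNum) κ hC hCZ
          (g := g) (by omega) (by omega) (by omega) (f0 := f0) (hf0' true) (hf0' false)
          (by omega) (by omega)
  obtain ⟨f, hf, hf'⟩ := key
  exact min_glue h hs hf' hg hf

/-! ### Small clique number -/

omit [Finite V] in
lemma nice_two {G : SimpleGraph V} {S : Set V} {f : V → Bool} (hf : Nice G S 2 f) {x y : V}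
    (hx : x ∈ S) (hy : y ∈ S) (h : G.Adj x y) : f x ≠ f y := by
  classical
  intro e
  refine hf {x, y} ?_ ⟨?_, Finset.card_pair h.ne⟩ (f x) ?_
  · intro z hz
    simp only [Finset.mem_insert, Finset.mem_singleton] at hz
    rcases hz with rfl | rfl
    · exact hx
    · exact hy
  · intro a ha b hb hab
    simp only [Finset.coe_insert, Finset.coe_singleton, Set.mem_insert_iff,
      Set.mem_singleton_iff] at ha hb
    rcases ha with rfl | rfl <;> rcases hb with rfl | rfl
    · exact absurd rfl hab
    · exact h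
    · exact h.symm
    · exact absurd rfl hab
  · intro z hz
    simp only [Finset.mem_insert, Finset.mem_singleton] at hz
    rcases hz with rfl | rfl
    · rfl
    · exact e.symm

omit [Finite V] in
lemma ssub_ne_univ {S T : Set V} (h : S ⊆ T) (hT : T ≠ Set.univ) : S ≠ Set.univ := fun e =>
  hT (Set.eq_univ_iff_forall.2 fun x => h (e ▸ Set.mem_univ x))

lemma colorable_two {G : SimpleGraph V} (h : MinNonTwoDivisible G) {S : Set V}
    (hS : S ≠ Set.univ) (hc : ¬ HasC G S 3) : (G.induce S).Colorable 2 := by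
  obtain ⟨f, hf⟩ := min_proper h hS le_rfl hc
  have c : (G.induce S).Coloring Bool := SimpleGraph.Coloring.mk (fun x => f x)
    (fun {x y} hxy => nice_two hf x.2 y.2 hxy)
  have := c.colorable
  simpa using this

lemma colorable_four {G : SimpleGraph V} (h : MinNonTwoDivisible G) {S : Set V}
    (hS : S ≠ Set.univ) (hc : ¬ HasC G S 4) : (G.induce S).Colorable 4 := by
  obtain ⟨f, hf⟩ := min_proper h hS (n := 3) (by norm_num) hc
  have hsub : ∀ b : Bool, {x | x ∈ S ∧ f x = b} ⊆ S := fun b x hx => hx.1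
  have hno : ∀ b : Bool, ¬ HasC G {x | x ∈ S ∧ f x = b} 3 := by
    rintro b ⟨K, hK, hKn⟩
    exact hf K (fun x hx => (hK x hx).1) hKn b (fun x hx => (hK x hx).2)
  obtain ⟨f1, hf1⟩ := min_proper h (ssub_ne_univ (hsub true) hS) le_rfl (hno true)
  obtain ⟨f2, hf2⟩ := min_proper h (ssub_ne_univ (hsub false) hS) le_rfl (hno false)
  have c : (G.induce S).Coloring (Bool × Bool) := SimpleGraph.Coloring.mk
    (fun x => (f x, if f x = true then f1 x else f2 x)) (by
      intro x y hxy
      have hxy' : G.Adj x y := hxy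
      intro e
      rw [Prod.mk.injEq] at e
      obtain ⟨e1, e2⟩ := e
      cases hb : f x
      · have hb' : f y = false := by rw [← e1, hb]
        rw [hb, hb'] at e2
        exact nice_two hf2 ⟨x.2, hb⟩ ⟨y.2, hb'⟩ hxy' (by simpa using e2)
      · have hb' : f y = true := by rw [← e1, hb]
        rw [hb, hb'] at e2
        exact nice_two hf1 ⟨x.2, hb⟩ ⟨y.2, hb'⟩ hxy' (by simpa using e2))
  have := c.colorable
  simpa using this

theorem four_le {G : SimpleGraph V} (h : MinNonTwoDivisible G) {C A : Set V}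
    (hC : G.IsClique C) (hs : IsSide G C A) : 4 ≤ G.cliqueNum := by
  by_contra hlt
  push Not at hlt
  have h2 := min_two h
  have hne := side_ne_univ hs
  have hno : ¬ HasC G (A ∪ C) (G.cliqueNum + 1) := by
    rintro ⟨K, -, hK⟩
    have : G.cliqueNum + 1 ≤ G.cliqueNum := hasC_univ.1 ⟨K, fun x _ => Set.mem_univ x, hK⟩
    omega
  apply side_not_colorable h hC hs
  rcases (show G.cliqueNum = 2 ∨ G.cliqueNum = 3 by omega) with e | e
  · rw [e] at hno ⊢
    exact colorable_two h hne hno
  · rw [e] at hno ⊢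
    exact colorable_four h hne hno

/-! ### Number of components -/

/-- vertex set of a component of `G - C` -/
def compSet (G : SimpleGraph V) (C : Set V) (c : (G.induce Cᶜ).ConnectedComponent) : Set V :=
  {x | ∃ hx : x ∈ Cᶜ, (G.induce Cᶜ).connectedComponentMk ⟨x, hx⟩ = c}

omit [Finite V] in
lemma compSet_side {G : SimpleGraph V} {C : Set V} {c d : (G.induce Cᶜ).ConnectedComponent}
    (hcd : c ≠ d) : IsSide G C (compSet G C c) := by
  refine ⟨fun x hx => hx.1, ?_, ?_, ?_⟩
  · obtain ⟨⟨x, hx⟩, rfl⟩ := c.exists_rep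
    exact ⟨x, hx, rfl⟩
  · obtain ⟨⟨x, hx⟩, rfl⟩ := d.exists_rep
    refine ⟨x, hx, ?_⟩
    rintro ⟨hx', e⟩
    exact hcd e.symm
  · rintro a ⟨ha, rfl⟩ b ⟨hb, hb'⟩ hab
    apply hb'
    refine ⟨hb, ?_⟩
    rw [SimpleGraph.ConnectedComponent.eq]
    have : (G.induce Cᶜ).Adj ⟨b, hb⟩ ⟨a, ha⟩ := hab.symm
    exact this.reachable

omit [Finite V] in
lemma nice_xor {G : SimpleGraph V} {S : Set V} {n : ℕ} {f : V → Bool} (hf : Nice G S n f)
    (b : Bool) : Nice G S n (fun x => xor (f x) b) := by
  intro K hK hKn c hc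
  refine hf K hK hKn (xor c b) (fun x hx => ?_)
  have := hc x hx
  rw [← this]
  show f x = xor (xor (f x) b) b
  cases f x <;> cases b <;> rfl

theorem card_components {G : SimpleGraph V} (h : MinNonTwoDivisible G) {C : Set V}
    (hcut : ¬ (G.induce Cᶜ).Preconnected) :
    Nat.card (G.induce Cᶜ).ConnectedComponent ≤ 2 ^ (C.ncard - 1) := by
  classical
  -- two components
  have h2 : ∃ c d : (G.induce Cᶜ).ConnectedComponent, c ≠ d := by
    unfold SimpleGraph.Preconnected at hcut
    push Not at hcut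
    obtain ⟨x, y, hxy⟩ := hcut
    exact ⟨(G.induce Cᶜ).connectedComponentMk x, (G.induce Cᶜ).connectedComponentMk y, fun e =>
      hxy (SimpleGraph.ConnectedComponent.eq.1 e)⟩
  have hside : ∀ c : (G.induce Cᶜ).ConnectedComponent, IsSide G C (compSet G C c) := by
    intro c
    obtain ⟨a, b, hab⟩ := h2
    by_cases e : c = a
    · exact compSet_side (d := b) (by rw [e]; exact hab)
    · exact compSet_side e
  have hg : ∀ c : (G.induce Cᶜ).ConnectedComponent, ∃ g : V → Bool,
      Nice G (compSet G C c)ᶜ G.cliqueNum g := fun c => min_good h (compl_ne_univ (hside c))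
  choose g hg using hg
  -- different components, different splittings
  have hdiff : ∀ (c d : (G.induce Cᶜ).ConnectedComponent) (b b' : Bool), c ≠ d →
      ¬ ∀ x ∈ C, xor (g d x) b = xor (g c x) b' := by
    intro c d b b' hcd he
    refine min_glue h (hside c) (f := fun x => xor (g d x) b) (g := fun x => xor (g c x) b')
      ?_ (nice_xor (hg c) b') he
    have hsub : compSet G C c ∪ C ⊆ (compSet G C d)ᶜ := by
      rintro x (hx | hx) hx'
      · obtain ⟨h1, h2⟩ := hx
        obtain ⟨h3, h4⟩ := hx'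
        exact hcd (h2.symm.trans h4)
      · exact hx'.1 hx
    intro K hK
    exact nice_xor (hg d) b K (fun x hx => hsub (hK x hx))
  by_cases hCe : C.Nonempty
  · obtain ⟨v, hv⟩ := hCe
    let Φ : (G.induce Cᶜ).ConnectedComponent → (↥(C \ {v}) → Bool) := fun c x =>
      xor (g c x) (g c v)
    have hinj : Function.Injective Φ := by
      intro c d e
      by_contra hcd
      refine hdiff c d (g d v) (g c v) hcd (fun x hx => ?_)
      by_cases hxv : x = v
      · subst hxv
        simp
      · exact (congrFun e ⟨x, hx, hxv⟩).symm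
    have := Nat.card_le_card_of_injective Φ hinj
    refine this.trans (le_of_eq ?_)
    rw [Nat.card_fun, Nat.card_eq_fintype_card (α := Bool), Fintype.card_bool,
      Nat.card_coe_set_eq, Set.ncard_sdiff_singleton_of_mem hv]
  · rw [Set.not_nonempty_iff_eq_empty] at hCe
    subst hCe
    obtain ⟨a, b, hab⟩ := h2
    exact absurd (fun x hx => absurd hx (Set.notMem_empty x)) (hdiff a b true true hab)

/-! ### The result -/

/-- a clique number inequality for a side -/
theorem side_clique {G : SimpleGraph V} (h : MinNonTwoDivisible G) {C A : Set V}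
    (hC : G.IsClique C) (h2C : 2 ≤ C.ncard) (hs : IsSide G C A) :
    2 * G.cliqueNum < C.ncard + 2 * (G.induce A).cliqueNum := by
  classical
  have h4 := four_le h hC hs
  have h3 := clique_ncard_le hC
  have e : (A ∪ C) \ C = A := by
    ext x
    constructor
    · rintro ⟨h1 | h1, h2⟩
      · exact h1
      · exact absurd h1 h2
    · intro hx
      exact ⟨Or.inl hx, hs.sub hx⟩
  have hcol : (G.induce C).Colorable C.ncard := by
    have hfin : Fintype C := Fintype.ofFinite _
    have := (G.induce C).colorable_of_fintype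
    rwa [← Nat.card_eq_fintype_card, Nat.card_coe_set_eq] at this
  have key := side_general h hC h2C hs (Z := C) subset_rfl
    (r := max 2 (G.induce A).cliqueNum) (le_max_left _ _) (by rw [e]; exact le_max_right _ _) hcol
  rcases le_total 2 (G.induce A).cliqueNum with h5 | h5
  · rwa [max_eq_right h5] at key
  · rw [max_eq_left h5] at key
    omega

omit [Finite V] in
lemma IsSide.not_preconnected {G : SimpleGraph V} {C A : Set V} (hs : IsSide G C A) :
    ¬ (G.induce Cᶜ).Preconnected := by
  intro hp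
  obtain ⟨a, ha⟩ := hs.ne
  obtain ⟨b, hb, hb'⟩ := hs.ne'
  have key : ∀ x y : ↥Cᶜ, (G.induce Cᶜ).Reachable x y → (x : V) ∈ A → (y : V) ∈ A := by
    rintro x y ⟨w⟩
    induction w with
    | nil => exact id
    | @cons u v w' hadj _ ih =>
      intro hu
      apply ih
      by_contra hv
      exact hs.adj _ hu _ ⟨v.2, hv⟩ hadj
  exact hb' (key ⟨a, hs.sub ha⟩ ⟨b, hb⟩ (hp _ _) ha)

/-- a clique cutset has at least two vertices -/
theorem IsSide.two_le {G : SimpleGraph V} (h : MinNonTwoDivisible G) {C A : Set V}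
    (hs : IsSide G C A) : 2 ≤ C.ncard := by
  have h1 := card_components h hs.not_preconnected
  have h2 : 1 < Nat.card (G.induce Cᶜ).ConnectedComponent := by
    rw [Finite.one_lt_card_iff_nontrivial]
    have := hs.not_preconnected
    unfold SimpleGraph.Preconnected at this
    push Not at this
    obtain ⟨x, y, hxy⟩ := this
    exact ⟨(G.induce Cᶜ).connectedComponentMk x, (G.induce Cᶜ).connectedComponentMk y, fun e =>
      hxy (SimpleGraph.ConnectedComponent.eq.1 e)⟩
  by_contra hc
  have : C.ncard - 1 = 0 := by omega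
  rw [this, pow_zero] at h1
  omega

/-- THE RESULT ON THE SIDES -/
theorem side_result (G : SimpleGraph V) (h : MinNonTwoDivisible G) (C A Z : Set V)
    (hC : G.IsClique C) (hs : IsSide G C A) (hCZ : C ⊆ Z) (m : ℕ)
    (hm : (G.induce Z).Colorable m) :
    ((G.induce ((A ∪ C) \ Z)).cliqueNum + C.ncard / 2 < G.cliqueNum →
      2 * G.cliqueNum ≤ m + (G.induce ((A ∪ C) \ Z)).cliqueNum + 1) ∧
    (2 ≤ (G.induce ((A ∪ C) \ Z)).cliqueNum →
      2 * G.cliqueNum < m + 2 * (G.induce ((A ∪ C) \ Z)).cliqueNum) := by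
  refine ⟨fun hr => ?_, fun hr => side_general h hC (hs.two_le h) hs hCZ hr le_rfl hm⟩
  have := side_one h hC hs hCZ le_rfl hr hm
  omega

end MP7bd86d
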