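import Mathlib

/-!
Brooks' theorem (after the short proof of Zajac), for finite sets of vertices.
-/

set_option autoImplicit false

namespace MP7bd86d

section Lists

variable {α : Type*}

lemma split_first (p : α → Prop) : ∀ L : List α, (∃ x ∈ L, p x) →
    ∃ D z R, L = D ++ z :: R ∧ p z ∧ ∀ y ∈ D, ¬ p y := by
  intro L
  induction L with
  | nil => rintro ⟨x, hx, -⟩; exact absurd hx List.not_mem_nil
  | cons a L ih =>
    rintro ⟨x, hx, hpx⟩
    by_cases ha : p a
    · exact ⟨[], a, L, rfl, ha, fun y hy => absurd hy List.not_mem_nil⟩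
    · have hx' : x ∈ L := by
        rcases List.mem_cons.1 hx with rfl | h
        · exact absurd hpx ha
        · exact h
      obtain ⟨D, z, R, e, hz, hD⟩ := ih ⟨x, hx', hpx⟩
      refine ⟨a :: D, z, R, by rw [e]; rfl, hz, ?_⟩
      intro y hy
      rcases List.mem_cons.1 hy with rfl | h
      · exact ha
      · exact hD y h

lemma split_last (p : α → Prop) : ∀ L : List α, (∃ x ∈ L, p x) →
    ∃ D z R, L = D ++ z :: R ∧ p z ∧ ∀ y ∈ R, ¬ p y := by
  intro L
  induction L with
  | nil => rintro ⟨x, hx, -⟩; exact absurd hx List.not_mem_nil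
  | cons a L ih =>
    rintro ⟨x, hx, hpx⟩
    by_cases hL : ∃ x ∈ L, p x
    · obtain ⟨D, z, R, e, hz, hR⟩ := ih hL
      exact ⟨a :: D, z, R, by rw [e]; rfl, hz, hR⟩
    · push Not at hL
      rcases List.mem_cons.1 hx with rfl | h
      · exact ⟨[], x, L, rfl, hpx, hL⟩
      · exact absurd hpx (hL x h)

end Lists

variable {V : Type*} [DecidableEq V]

/-- `f` is proper on `S` -/
def ColS (G : SimpleGraph V) (S : Finset V) {k : ℕ} (f : V → Fin k) : Prop :=
  ∀ x ∈ S, ∀ y ∈ S, G.Adj x y → f x ≠ f y

variable {G : SimpleGraph V} [DecidableRel G.Adj] {k : ℕ}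

lemma ColS.ext_one {T : Finset V} {f : V → Fin k} (hf : ColS G T f) {v : V} (hv : v ∉ T)
    (hdeg : ((T.filter (G.Adj v)).image f).card < k) :
    ∃ f' : V → Fin k, (∀ x, x ≠ v → f' x = f x) ∧ ColS G (insert v T) f' := by
  obtain ⟨c, hc⟩ : ∃ c, c ∉ (T.filter (G.Adj v)).image f := by
    by_contra hcon
    push Not at hcon
    have : (Finset.univ : Finset (Fin k)) ⊆ (T.filter (G.Adj v)).image f := fun c _ => hcon c
    have := Finset.card_le_card this
    rw [Finset.card_univ, Fintype.card_fin] at this
    omega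
  have hc' : ∀ y ∈ T, G.Adj v y → c ≠ f y := by
    rintro y hy hvy rfl
    exact hc (Finset.mem_image.2 ⟨y, Finset.mem_filter.2 ⟨hy, hvy⟩, rfl⟩)
  refine ⟨Function.update f v c, fun x hx => Function.update_of_ne hx _ _, ?_⟩
  intro x hx y hy hxy
  rw [Finset.mem_insert] at hx hy
  rcases hx with rfl | hx <;> rcases hy with rfl | hy
  · exact absurd rfl hxy.ne
  · have hyx : y ≠ x := fun e => hv (e ▸ hy)
    rw [Function.update_self, Function.update_of_ne hyx]
    exact hc' y hy hxy
  · have hxy' : x ≠ y := fun e => hv (e ▸ hx)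
    rw [Function.update_self, Function.update_of_ne hxy']
    exact (hc' x hx hxy.symm).symm
  · have hxv : x ≠ v := fun e => hv (e ▸ hx)
    have hyv : y ≠ v := fun e => hv (e ▸ hy)
    rw [Function.update_of_ne hxv, Function.update_of_ne hyv]
    exact hf x hx y hy hxy

/-- greedy colouring along a path, the last vertex `z` stays uncoloured -/
lemma greedy {S : Finset V} (hdeg : ∀ v ∈ S, (S.filter (G.Adj v)).card ≤ k) :
    ∀ (p : List V) (z : V) (T : Finset V) (f : V → Fin k), ColS G T f → T ⊆ S →
      (∀ x ∈ p, x ∈ S ∧ x ∉ T) → z ∈ S → z ∉ T → (p ++ [z]).Nodup →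
      (p ++ [z]).IsChain G.Adj →
      ∃ f' : V → Fin k, (∀ x, x ∉ p → f' x = f x) ∧ ColS G (T ∪ p.toFinset) f' := by
  intro p
  induction p with
  | nil =>
    intro z T f hf _ _ _ _ _ _
    exact ⟨f, fun _ _ => rfl, by simpa using hf⟩
  | cons x q ih =>
    intro z T f hf hT hp hz hz' hnd hch
    have hxS := (hp x List.mem_cons_self).1
    have hxT := (hp x List.mem_cons_self).2
    -- the next vertex
    obtain ⟨y, hyS, hyT, hxy⟩ : ∃ y, y ∈ S ∧ y ∉ T ∧ G.Adj x y := by
      cases q with
      | nil =>
        refine ⟨z, hz, hz', ?_⟩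
        simpa using hch
      | cons y q' =>
        refine ⟨y, (hp y (by simp)).1, (hp y (by simp)).2, ?_⟩
        simp only [List.cons_append, List.isChain_cons_cons] at hch
        exact hch.1
    have hlt : (T.filter (G.Adj x)).card < k := by
      have h1 : T.filter (G.Adj x) ⊂ S.filter (G.Adj x) := by
        rw [Finset.ssubset_iff_of_subset (Finset.filter_subset_filter _ hT)]
        exact ⟨y, Finset.mem_filter.2 ⟨hyS, hxy⟩, fun h => hyT (Finset.mem_filter.1 h).1⟩
      exact (Finset.card_lt_card h1).trans_le (hdeg x hxS)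
    obtain ⟨f1, hf1, hf1'⟩ := hf.ext_one hxT (Finset.card_image_le.trans_lt hlt)
    have hnd' : x ∉ q ++ [z] ∧ (q ++ [z]).Nodup := by
      rw [List.cons_append, List.nodup_cons] at hnd
      exact hnd
    have hxz : z ≠ x := fun e => hnd'.1 (by simp [e])
    obtain ⟨f2, hf2, hf2'⟩ := ih z (insert x T) f1 hf1' (Finset.insert_subset hxS hT) (by
      intro u hu
      refine ⟨(hp u (List.mem_cons_of_mem _ hu)).1, ?_⟩
      rw [Finset.mem_insert]
      rintro (rfl | h)
      · exact hnd'.1 (List.mem_append_left _ hu)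
      · exact (hp u (List.mem_cons_of_mem _ hu)).2 h) hz (by
      rw [Finset.mem_insert]
      rintro (h | h)
      · exact hxz h
      · exact hz' h) hnd'.2 (by
      rw [List.cons_append] at hch
      exact hch.tail)
    refine ⟨f2, ?_, ?_⟩
    · intro u hu
      rw [List.mem_cons, not_or] at hu
      rw [hf2 u hu.2, hf1 u hu.1]
    · have e : T ∪ (x :: q).toFinset = insert x T ∪ q.toFinset := by
        ext u
        simp only [Finset.mem_union, List.mem_toFinset, List.mem_cons, Finset.mem_insert]
        tauto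
      rw [e]
      exact hf2'

/-- the last vertex has two neighbours of the same colour -/
lemma ColS.ext_two {S T : Finset V} {f : V → Fin k} (hf : ColS G T f) (hT : T ⊆ S) {z : V}
    (hz' : z ∉ T) (hdeg : (S.filter (G.Adj z)).card ≤ k) {u y : V} (hu : u ∈ T)
    (hy : y ∈ T) (huy : u ≠ y) (hzu : G.Adj z u) (hzy : G.Adj z y) (he : f u = f y) :
    ∃ f' : V → Fin k, ColS G (insert z T) f' := by
  have hyF : y ∈ T.filter (G.Adj z) := Finset.mem_filter.2 ⟨hy, hzy⟩
  have huF : u ∈ (T.filter (G.Adj z)).erase y :=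
    Finset.mem_erase.2 ⟨huy, Finset.mem_filter.2 ⟨hu, hzu⟩⟩
  have h1 : (T.filter (G.Adj z)).image f ⊆ ((T.filter (G.Adj z)).erase y).image f := by
    intro c hc
    obtain ⟨x, hx, rfl⟩ := Finset.mem_image.1 hc
    by_cases hxy : x = y
    · exact Finset.mem_image.2 ⟨u, huF, by rw [he, hxy]⟩
    · exact Finset.mem_image.2 ⟨x, Finset.mem_erase.2 ⟨hxy, hx⟩, rfl⟩
  have h2 := Finset.card_le_card h1
  have h3 : (((T.filter (G.Adj z)).erase y).image f).card ≤ (T.filter (G.Adj z)).card - 1 :=
    Finset.card_image_le.trans (Finset.card_erase_of_mem hyF).le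
  have h4 : 0 < (T.filter (G.Adj z)).card := Finset.card_pos.2 ⟨y, hyF⟩
  have h5 : (T.filter (G.Adj z)).card ≤ (S.filter (G.Adj z)).card :=
    Finset.card_le_card (Finset.filter_subset_filter _ hT)
  obtain ⟨f', -, hf'⟩ := hf.ext_one hz' (by omega)
  exact ⟨f', hf'⟩

/-- Brooks' theorem -/
theorem brooks (hk : 3 ≤ k) : ∀ S : Finset V, (∀ v ∈ S, (S.filter (G.Adj v)).card ≤ k) →
    (∀ K ⊆ S, G.IsClique K → K.card ≤ k) → ∃ f : V → Fin k, ColS G S f := by
  intro S
  induction S using Finset.strongInduction with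
  | H S ih =>
  intro hdeg hcl
  have ih' : ∀ T, T ⊂ S → ∃ f : V → Fin k, ColS G T f := by
    intro T hT
    refine ih T hT (fun v hv => ?_) (fun K hK => hcl K (hK.trans hT.1))
    exact (Finset.card_le_card (Finset.filter_subset_filter _ hT.1)).trans (hdeg v (hT.1 hv))
  by_contra hno
  have hk0 : 0 < k := by omega
  have hSne : S.Nonempty := by
    rw [Finset.nonempty_iff_ne_empty]
    rintro rfl
    exact hno ⟨fun _ => ⟨0, hk0⟩, fun x hx => absurd hx (Finset.notMem_empty x)⟩
  -- degrees
  have hdeg' : ∀ v ∈ S, k ≤ (S.filter (G.Adj v)).card := by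
    intro v hv
    by_contra hlt
    push Not at hlt
    obtain ⟨f, hf⟩ := ih' (S.erase v) (Finset.erase_ssubset hv)
    obtain ⟨f', -, hf'⟩ := hf.ext_one (Finset.notMem_erase v S)
      (Finset.card_image_le.trans_lt ((Finset.card_le_card
        (Finset.filter_subset_filter _ (Finset.erase_subset v S))).trans_lt hlt))
    rw [Finset.insert_erase hv] at hf'
    exact hno ⟨f', hf'⟩
  -- connectedness
  have hconn : ∀ D : Finset V, D ⊂ S → D.Nonempty → ∃ x ∈ D, ∃ u ∈ S, u ∉ D ∧ G.Adj x u := by
    intro D hD hDne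
    by_contra hcon
    push Not at hcon
    obtain ⟨f1, hf1⟩ := ih' D hD
    obtain ⟨f2, hf2⟩ := ih' (S \ D) (Finset.sdiff_ssubset hD.1 hDne)
    refine hno ⟨fun x => if x ∈ D then f1 x else f2 x, ?_⟩
    intro x hx y hy hxy
    by_cases h1 : x ∈ D <;> by_cases h2 : y ∈ D
    · simp only [h1, h2, if_true]
      exact hf1 x h1 y h2 hxy
    · exact absurd hxy (hcon x h1 y hy h2)
    · exact absurd hxy.symm (hcon y h2 x hx h1)
    · simp only [h1, h2, if_false]
      exact hf2 x (Finset.mem_sdiff.2 ⟨hx, h1⟩) y (Finset.mem_sdiff.2 ⟨hy, h2⟩) hxy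
  -- two non-adjacent neighbours
  obtain ⟨v2, hv2⟩ := hSne
  obtain ⟨v1, hv1, v3, hv3, h21, h23, h13, h13'⟩ : ∃ v1 ∈ S, ∃ v3 ∈ S, G.Adj v2 v1 ∧ G.Adj v2 v3 ∧
      v1 ≠ v3 ∧ ¬ G.Adj v1 v3 := by
    by_contra hcon
    push Not at hcon
    have h1 : G.IsClique (insert v2 (S.filter (G.Adj v2)) : Finset V) := by
      rw [Finset.coe_insert]
      refine SimpleGraph.IsClique.insert ?_ ?_
      · intro x hx y hy hxy
        rw [Finset.mem_coe, Finset.mem_filter] at hx hy
        exact hcon x hx.1 y hy.1 hx.2 hy.2 hxy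
      · intro y hy _
        rw [Finset.mem_coe, Finset.mem_filter] at hy
        exact hy.2
    have h2 := hcl _ (Finset.insert_subset hv2 (Finset.filter_subset _ _)) h1
    rw [Finset.card_insert_of_notMem (by simp)] at h2
    have h3 := hdeg' v2 hv2
    omega
  -- a longest path starting `v1 v2 v3` (written backwards)
  let Pth : List V → Prop := fun q => (q ++ [v3, v2, v1]).Nodup ∧
    (q ++ [v3, v2, v1]).IsChain G.Adj ∧ ∀ x ∈ q, x ∈ S
  have hP0 : Pth [] := by
    refine ⟨?_, ?_, fun x hx => absurd hx List.not_mem_nil⟩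
    · have e1 := h21.ne
      have e2 := h23.ne
      simp only [List.nil_append, List.nodup_cons, List.mem_cons, List.not_mem_nil, or_false,
        not_or, not_false_eq_true, List.nodup_nil, and_true]
      exact ⟨⟨e2.symm, h13.symm⟩, e1⟩
    · simp only [List.nil_append, List.isChain_cons_cons, List.isChain_singleton, and_true]
      exact ⟨h23.symm, h21⟩
  have hPlen : ∀ q, Pth q → q.length ≤ S.card := by
    rintro q ⟨h1, -, h3⟩
    have h4 := (List.nodup_append.1 h1).1
    rw [← List.toFinset_card_of_nodup h4]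
    exact Finset.card_le_card (fun x hx => h3 x (List.mem_toFinset.1 hx))
  obtain ⟨q, hq, hqmax⟩ : ∃ q, Pth q ∧ ∀ q', Pth q' → q'.length ≤ q.length := by
    classical
    have h0 : ∃ q, Pth q ∧ q.length = 0 := ⟨[], hP0, rfl⟩
    obtain ⟨q, hq, hql⟩ := Nat.findGreatest_spec (P := fun n => ∃ q, Pth q ∧ q.length = n)
      (Nat.zero_le S.card) h0
    refine ⟨q, hq, fun q' hq' => ?_⟩
    rw [hql]
    exact Nat.le_findGreatest (hPlen q' hq') ⟨q', hq', rfl⟩
  obtain ⟨hnd, hch, hqS⟩ := hq
  have hLS : ∀ x ∈ q ++ [v3, v2, v1], x ∈ S := by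
    intro x hx
    rw [List.mem_append] at hx
    rcases hx with hx | hx
    · exact hqS x hx
    · simp only [List.mem_cons, List.not_mem_nil, or_false] at hx
      rcases hx with rfl | rfl | rfl
      · exact hv3
      · exact hv2
      · exact hv1
  obtain ⟨d1, L', hL⟩ : ∃ d1 L', q ++ [v3, v2, v1] = d1 :: L' := by
    cases q with
    | nil => exact ⟨v3, [v2, v1], rfl⟩
    | cons a q' => exact ⟨a, q' ++ [v3, v2, v1], rfl⟩
  have hd1S : d1 ∈ S := hLS d1 (by rw [hL]; exact List.mem_cons_self)
  -- all neighbours of `d1` are on the path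
  have hd1 : ∀ u ∈ S, G.Adj d1 u → u ∈ q ++ [v3, v2, v1] := by
    intro u hu hdu
    by_contra hcon
    have : Pth (u :: q) := by
      refine ⟨?_, ?_, ?_⟩
      · rw [List.cons_append, List.nodup_cons]
        exact ⟨hcon, hnd⟩
      · rw [List.cons_append, hL, List.isChain_cons_cons, ← hL]
        exact ⟨hdu.symm, hch⟩
      · intro x hx
        rcases List.mem_cons.1 hx with rfl | hx
        · exact hu
        · exact hqS x hx
    have := hqmax _ this
    rw [List.length_cons] at this
    omega
  obtain ⟨w, hw⟩ : (S.filter (G.Adj d1)).Nonempty := by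
    rw [← Finset.card_pos]
    have := hdeg' d1 hd1S
    omega
  rw [Finset.mem_filter] at hw
  obtain ⟨D0, z, R, hDR, hdz, hR⟩ := split_last (G.Adj d1) (q ++ [v3, v2, v1])
    ⟨w, hd1 w hw.1 hw.2, hw.2⟩
  -- the cycle `D0 ++ [z]`
  have hDR' : q ++ [v3, v2, v1] = (D0 ++ [z]) ++ R := by rw [hDR]; simp
  have hDnd : (D0 ++ [z]).Nodup := by
    rw [hDR'] at hnd
    exact (List.nodup_append.1 hnd).1
  have hDch : (D0 ++ [z]).IsChain G.Adj := by
    rw [hDR'] at hch
    exact (List.isChain_append.1 hch).1
  have hDS : ∀ x ∈ D0 ++ [z], x ∈ S := fun x hx => hLS x (by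
    rw [hDR']
    exact List.mem_append_left _ hx)
  have hD1 : ∀ u ∈ S, G.Adj d1 u → u ∈ D0 ++ [z] := by
    intro u hu hdu
    have := hd1 u hu hdu
    rw [hDR', List.mem_append] at this
    exact this.resolve_right (fun h => hR u h hdu)
  have hhead : (D0 ++ [z]).head? = some d1 := by
    cases D0 with
    | nil =>
      rw [hL, List.nil_append, List.cons.injEq] at hDR
      exact absurd (hDR.1 ▸ hdz) G.irrefl
    | cons a D' =>
      rw [hL, List.cons_append, List.cons.injEq] at hDR
      rw [List.cons_append, List.head?_cons, hDR.1]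
  have hlast : (D0 ++ [z]).getLast? = some z := by simp
  by_cases hDSeq : (D0 ++ [z]).toFinset = S
  · -- the path is a Hamiltonian cycle
    have hR0 : R = [] := by
      rw [List.eq_nil_iff_forall_not_mem]
      intro x hx
      have h1 : x ∈ S := hLS x (by rw [hDR']; exact List.mem_append_right _ hx)
      rw [← hDSeq, List.mem_toFinset] at h1
      rw [hDR'] at hnd
      exact (List.nodup_append.1 hnd).2.2 x h1 x hx rfl
    have hLall : ∀ x ∈ S, x ∈ q ++ [v3, v2, v1] := by
      intro x hx
      rw [← hDSeq, List.mem_toFinset] at hx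
      rw [hDR']
      exact List.mem_append_left _ hx
    -- a third neighbour of `v2`
    obtain ⟨w, hwS, hw2, hw1, hw3⟩ : ∃ w ∈ S, G.Adj v2 w ∧ w ≠ v1 ∧ w ≠ v3 := by
      by_contra hcon
      push Not at hcon
      have h1 : S.filter (G.Adj v2) ⊆ {v1, v3} := by
        intro x hx
        rw [Finset.mem_filter] at hx
        rw [Finset.mem_insert, Finset.mem_singleton]
        by_cases h : x = v1
        · exact Or.inl h
        · exact Or.inr (hcon x hx.1 hx.2 h)
      have h2 := Finset.card_le_card h1
      have h3 := hdeg' v2 hv2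
      have h4 : ({v1, v3} : Finset V).card ≤ 2 := Finset.card_le_two
      omega
    have hwq : w ∈ q := by
      have := hLall w hwS
      rw [List.mem_append] at this
      rcases this with h | h
      · exact h
      · simp only [List.mem_cons, List.not_mem_nil, or_false] at h
        rcases h with rfl | rfl | rfl
        · exact absurd rfl hw3
        · exact absurd rfl hw2.ne
        · exact absurd rfl hw1
    obtain ⟨q1, q2, rfl⟩ := List.append_of_mem hwq
    have hnd1 := List.nodup_append.1 hnd
    have hch1 := List.isChain_append.1 hch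
    have hnq : ∀ x ∈ q1 ++ w :: q2, x ≠ v1 ∧ x ≠ v2 ∧ x ≠ v3 := by
      intro x hx
      exact ⟨hnd1.2.2 x hx v1 (by simp), hnd1.2.2 x hx v2 (by simp), hnd1.2.2 x hx v3 (by simp)⟩
    have hndq := List.nodup_append.1 hnd1.1
    have hndw := List.nodup_cons.1 hndq.2.1
    -- first colours
    have c0 : ColS G ({v1, v3} : Finset V) (fun _ => (⟨0, hk0⟩ : Fin k)) := by
      intro x hx y hy hxy
      rw [Finset.mem_insert, Finset.mem_singleton] at hx hy
      rcases hx with rfl | rfl <;> rcases hy with rfl | rfl
      · exact absurd rfl hxy.ne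
      · exact absurd hxy h13'
      · exact absurd hxy.symm h13'
      · exact absurd rfl hxy.ne
    have sub0 : ({v1, v3} : Finset V) ⊆ S := by
      intro x hx
      rw [Finset.mem_insert, Finset.mem_singleton] at hx
      rcases hx with rfl | rfl
      · exact hv1
      · exact hv3
    -- first run
    obtain ⟨f1, hf1, hf1'⟩ := greedy hdeg q2.reverse w {v1, v3} _ c0 sub0 (by
      intro x hx
      rw [List.mem_reverse] at hx
      have hxq : x ∈ q1 ++ w :: q2 := List.mem_append_right _ (List.mem_cons_of_mem _ hx)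
      refine ⟨hqS x hxq, ?_⟩
      rw [Finset.mem_insert, Finset.mem_singleton, not_or]
      exact ⟨(hnq x hxq).1, (hnq x hxq).2.2⟩) hwS (by
      rw [Finset.mem_insert, Finset.mem_singleton, not_or]
      exact ⟨hw1, hw3⟩) (by
      rw [← List.reverse_cons, List.nodup_reverse]
      exact hndq.2.1) (by
      rw [← List.reverse_cons, List.isChain_reverse]
      have := (List.isChain_append.1 hch1.1).2.1
      simpa only [SimpleGraph.adj_comm] using this)
    -- second run
    have hT1 : ∀ x, x ∈ ({v1, v3} : Finset V) ∪ q2.reverse.toFinset ↔ x = v1 ∨ x = v3 ∨ x ∈ q2 := by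
      intro x
      rw [Finset.mem_union, Finset.mem_insert, Finset.mem_singleton, List.mem_toFinset,
        List.mem_reverse, or_assoc]
    obtain ⟨f2, hf2, hf2'⟩ := greedy hdeg (q1 ++ [w]) v2 _ f1 hf1' (by
      intro x hx
      rw [hT1] at hx
      rcases hx with rfl | rfl | hx
      · exact hv1
      · exact hv3
      · exact hqS x (List.mem_append_right _ (List.mem_cons_of_mem _ hx))) (by
      intro x hx
      rw [List.mem_append, List.mem_singleton] at hx
      have hxq : x ∈ q1 ++ w :: q2 := by
        rcases hx with hx | rfl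
        · exact List.mem_append_left _ hx
        · exact List.mem_append_right _ List.mem_cons_self
      refine ⟨hqS x hxq, ?_⟩
      rw [hT1]
      rintro (h | h | h)
      · exact (hnq x hxq).1 h
      · exact (hnq x hxq).2.2 h
      · rcases hx with hx | rfl
        · exact hndq.2.2 x hx x (List.mem_cons_of_mem _ h) rfl
        · exact hndw.1 h) hv2 (by
      rw [hT1]
      rintro (h | h | h)
      · exact h21.ne h
      · exact h23.ne h
      · exact (hnq v2 (List.mem_append_right _ (List.mem_cons_of_mem _ h))).2.1 rfl) (by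
      rw [List.nodup_append]
      refine ⟨?_, by simp, ?_⟩
      · rw [List.nodup_append]
        refine ⟨hndq.1, by simp, ?_⟩
        intro a ha b hb
        rw [List.mem_singleton] at hb
        rw [hb]
        exact hndq.2.2 a ha w List.mem_cons_self
      · intro a ha b hb
        rw [List.mem_singleton] at hb
        rw [hb]
        refine (hnq a ?_).2.1
        rw [List.mem_append, List.mem_singleton] at ha
        rcases ha with ha | rfl
        · exact List.mem_append_left _ ha
        · exact List.mem_append_right _ List.mem_cons_self) (by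
      rw [List.isChain_append]
      refine ⟨?_, List.isChain_singleton _, ?_⟩
      · have h1 : q1 ++ w :: q2 = (q1 ++ [w]) ++ q2 := by simp
        have h2 := hch1.1
        rw [h1] at h2
        exact (List.isChain_append.1 h2).1
      · intro a ha b hb
        simp only [List.getLast?_append, List.getLast?_singleton, Option.some_or,
          Option.mem_def, Option.some.injEq, List.head?_cons] at ha hb
        rw [← ha, ← hb]
        exact hw2.symm)
    have hv1n : v1 ∉ q1 ++ [w] := by
      intro h
      rw [List.mem_append, List.mem_singleton] at h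
      rcases h with h | h
      · exact (hnq v1 (List.mem_append_left _ h)).1 rfl
      · exact hw1 h.symm
    have hv3n : v3 ∉ q1 ++ [w] := by
      intro h
      rw [List.mem_append, List.mem_singleton] at h
      rcases h with h | h
      · exact (hnq v3 (List.mem_append_left _ h)).2.2 rfl
      · exact hw3 h.symm
    have hv1n' : v1 ∉ q2.reverse := by
      intro h
      rw [List.mem_reverse] at h
      exact (hnq v1 (List.mem_append_right _ (List.mem_cons_of_mem _ h))).1 rfl
    have hv3n' : v3 ∉ q2.reverse := by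
      intro h
      rw [List.mem_reverse] at h
      exact (hnq v3 (List.mem_append_right _ (List.mem_cons_of_mem _ h))).2.2 rfl
    have hT2 : ∀ x, x ∈ ({v1, v3} : Finset V) ∪ q2.reverse.toFinset ∪ (q1 ++ [w]).toFinset ↔
        x = v1 ∨ x = v3 ∨ x ∈ q1 ++ w :: q2 := by
      intro x
      rw [Finset.mem_union, hT1, List.mem_toFinset]
      simp only [List.mem_append, List.mem_cons, List.not_mem_nil, or_false]
      tauto
    obtain ⟨f3, hf3⟩ := hf2'.ext_two (S := S) (z := v2) (u := v1) (y := v3) (by
      intro x hx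
      rw [hT2] at hx
      rcases hx with rfl | rfl | hx
      · exact hv1
      · exact hv3
      · exact hqS x hx) (by
      rw [hT2]
      rintro (h | h | h)
      · exact h21.ne h
      · exact h23.ne h
      · exact (hnq v2 h).2.1 rfl) (hdeg v2 hv2) ((hT2 v1).2 (Or.inl rfl))
      ((hT2 v3).2 (Or.inr (Or.inl rfl))) h13 h21 h23 (by
      rw [hf2 v1 hv1n, hf2 v3 hv3n, hf1 v1 hv1n', hf1 v3 hv3n'])
    refine hno ⟨f3, ?_⟩
    intro x hx y hy
    have hmem : ∀ x ∈ S, x ∈ insert v2
        (({v1, v3} : Finset V) ∪ q2.reverse.toFinset ∪ (q1 ++ [w]).toFinset) := by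
      intro x hx
      rw [Finset.mem_insert, hT2]
      have := hLall x hx
      rw [List.mem_append] at this
      rcases this with h | h
      · exact Or.inr (Or.inr (Or.inr h))
      · simp only [List.mem_cons, List.not_mem_nil, or_false] at h
        tauto
    exact hf3 x (hmem x hx) y (hmem y hy)
  · -- the cycle does not contain all vertices
    have hDss : (D0 ++ [z]).toFinset ⊂ S := by
      rw [Finset.ssubset_iff_subset_ne]
      exact ⟨fun x hx => hDS x (List.mem_toFinset.1 hx), hDSeq⟩
    obtain ⟨x0, hx0, u0, hu0, hu0', hxu0⟩ := hconn _ hDss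
      ⟨z, List.mem_toFinset.2 (by simp)⟩
    obtain ⟨E, x, E', hE, ⟨u, huS, huD, hxu⟩, hEn⟩ := split_first
      (fun x => ∃ u ∈ S, u ∉ D0 ++ [z] ∧ G.Adj x u) (D0 ++ [z])
      ⟨x0, List.mem_toFinset.1 hx0, u0, hu0, fun h => hu0' (List.mem_toFinset.2 h), hxu0⟩
    -- `E` is not empty
    rcases List.eq_nil_or_concat E with rfl | ⟨E0, y, rfl⟩
    · rw [hE, List.nil_append, List.head?_cons, Option.some.injEq] at hhead
      rw [hhead] at hxu
      exact absurd (hD1 u huS hxu) huD
    rw [List.concat_eq_append] at hE hEn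
    have hyn := hEn y (by simp)
    push Not at hyn
    rw [hE] at hDnd hDch hhead hlast hDS
    have hmemD : ∀ a, a ∈ D0 ++ [z] ↔ a ∈ E0 ∨ a = y ∨ a = x ∨ a ∈ E' := by
      intro a
      rw [hE]
      simp only [List.mem_append, List.mem_cons, List.not_mem_nil, or_false]
      tauto
    have hyx : G.Adj y x := by
      have h1 := List.isChain_append.1 hDch
      exact h1.2.2 y (by simp) x (by simp)
    have nd1 := List.nodup_append.1 hDnd
    have nd2 := List.nodup_append.1 nd1.1
    have nd3 := List.nodup_cons.1 nd1.2.1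
    have hyS : y ∈ S := hDS y (by simp)
    have hxS : x ∈ S := hDS x (by simp)
    have huy : u ≠ y := fun e => huD ((hmemD u).2 (Or.inr (Or.inl e)))
    have hux : u ≠ x := fun e => huD ((hmemD u).2 (Or.inr (Or.inr (Or.inl e))))
    -- colour the rest
    obtain ⟨f, hf⟩ := ih' (S \ (D0 ++ [z]).toFinset) (Finset.sdiff_ssubset hDss.1
      ⟨z, List.mem_toFinset.2 (by simp)⟩)
    have hT0 : ∀ a, a ∈ S \ (D0 ++ [z]).toFinset ↔ a ∈ S ∧ a ∉ D0 ++ [z] := by
      intro a
      rw [Finset.mem_sdiff, List.mem_toFinset]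
    have hyT0 : y ∉ S \ (D0 ++ [z]).toFinset := fun h =>
      ((hT0 y).1 h).2 ((hmemD y).2 (Or.inr (Or.inl rfl)))
    -- `y` gets the colour of `u`
    have hf1 : ColS G (insert y (S \ (D0 ++ [z]).toFinset)) (Function.update f y (f u)) := by
      intro a ha b hb hab
      rw [Finset.mem_insert] at ha hb
      rcases ha with rfl | ha <;> rcases hb with rfl | hb
      · exact absurd rfl hab.ne
      · exact absurd hab (hyn b ((hT0 b).1 hb).1 ((hT0 b).1 hb).2)
      · exact absurd hab.symm (hyn a ((hT0 a).1 ha).1 ((hT0 a).1 ha).2)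
      · have h1 : a ≠ y := fun e => hyT0 (e ▸ ha)
        have h2 : b ≠ y := fun e => hyT0 (e ▸ hb)
        rw [Function.update_of_ne h1, Function.update_of_ne h2]
        exact hf a ha b hb hab
    -- greedy run
    obtain ⟨f2, hf2, hf2'⟩ := greedy hdeg (E0.reverse ++ E'.reverse) x _ _ hf1 (by
      intro a ha
      rw [Finset.mem_insert, hT0] at ha
      rcases ha with rfl | ha
      · exact hyS
      · exact ha.1) (by
      intro a ha
      rw [List.mem_append, List.mem_reverse, List.mem_reverse] at ha
      have haD : a ∈ D0 ++ [z] := (hmemD a).2 (by tauto)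
      refine ⟨hDS a (hE ▸ haD), ?_⟩
      rw [Finset.mem_insert, hT0, not_or]
      refine ⟨?_, fun h => h.2 haD⟩
      rintro rfl
      rcases ha with ha | ha
      · exact nd2.2.2 a ha a (by simp) rfl
      · exact nd1.2.2 a (by simp) a (List.mem_cons_of_mem _ ha) rfl) hxS (by
      rw [Finset.mem_insert, hT0, not_or]
      exact ⟨hyx.ne.symm, fun h => h.2 ((hmemD x).2 (by tauto))⟩) (by
      rw [List.append_assoc, List.nodup_append]
      refine ⟨List.nodup_reverse.2 nd2.1, ?_, ?_⟩
      · rw [← List.reverse_cons, List.nodup_reverse]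
        exact nd1.2.1
      · intro a ha b hb
        rw [← List.reverse_cons, List.mem_reverse] at hb
        rw [List.mem_reverse] at ha
        exact nd1.2.2 a (List.mem_append_left _ ha) b hb) (by
      rw [List.append_assoc, List.isChain_append]
      refine ⟨?_, ?_, ?_⟩
      · rw [List.isChain_reverse]
        have h1 := (List.isChain_append.1 (List.isChain_append.1 hDch).1).1
        simpa only [SimpleGraph.adj_comm] using h1
      · rw [← List.reverse_cons, List.isChain_reverse]
        have h1 := (List.isChain_append.1 hDch).2.1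
        simpa only [SimpleGraph.adj_comm] using h1
      · intro a ha b hb
        rw [List.getLast?_reverse] at ha
        rw [← List.reverse_cons, List.head?_reverse] at hb
        have ha' : a = d1 := by
          cases E0 with
          | nil => simp at ha
          | cons e E0' =>
            simp only [List.cons_append, List.head?_cons, Option.some.injEq, Option.mem_def]
              at ha hhead
            exact ha.symm.trans hhead
        have hb' : b = z := by
          rw [List.getLast?_append] at hlast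
          rw [Option.mem_def] at hb
          rw [hb, Option.some_or, Option.some.injEq] at hlast
          exact hlast
        rw [ha', hb']
        exact hdz)
    have hnp : ∀ a, a ∉ E0 → a ∉ E' → a ∉ E0.reverse ++ E'.reverse := by
      intro a h1 h2 h3
      rw [List.mem_append, List.mem_reverse, List.mem_reverse] at h3
      tauto
    have hfu : f2 u = f u := by
      rw [hf2 u (hnp u (fun h => huD ((hmemD u).2 (by tauto)))
        (fun h => huD ((hmemD u).2 (by tauto)))), Function.update_of_ne huy]
    have hfy : f2 y = f u := by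
      rw [hf2 y (hnp y (fun h => nd2.2.2 y h y (by simp) rfl)
        (fun h => nd1.2.2 y (by simp) y (List.mem_cons_of_mem _ h) rfl)), Function.update_self]
    have hT2 : ∀ a, a ∈ insert y (S \ (D0 ++ [z]).toFinset) ∪ (E0.reverse ++ E'.reverse).toFinset ↔
        a = y ∨ (a ∈ S ∧ a ∉ D0 ++ [z]) ∨ a ∈ E0 ∨ a ∈ E' := by
      intro a
      have e1 : a ∈ (E0.reverse ++ E'.reverse).toFinset ↔ a ∈ E0 ∨ a ∈ E' := by
        rw [List.mem_toFinset, List.mem_append, List.mem_reverse, List.mem_reverse]
      rw [Finset.mem_union, Finset.mem_insert, hT0, e1, or_assoc]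
    obtain ⟨f3, hf3⟩ := hf2'.ext_two (S := S) (z := x) (u := u) (y := y) (by
      intro a ha
      rw [hT2] at ha
      rcases ha with rfl | ha | ha | ha
      · exact hyS
      · exact ha.1
      · exact hDS a (hE ▸ (hmemD a).2 (by tauto))
      · exact hDS a (hE ▸ (hmemD a).2 (by tauto))) (by
      rw [hT2]
      rintro (h | h | h | h)
      · exact hyx.ne h.symm
      · exact h.2 ((hmemD x).2 (by tauto))
      · exact nd1.2.2 x (List.mem_append_left _ h) x List.mem_cons_self rfl
      · exact nd3.1 h) (hdeg x hxS) ((hT2 u).2 (Or.inr (Or.inl ⟨huS, huD⟩)))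
      ((hT2 y).2 (Or.inl rfl)) huy hxu hyx.symm (by rw [hfu, hfy])
    refine hno ⟨f3, ?_⟩
    intro a ha b hb
    have hmem : ∀ a ∈ S, a ∈ insert x
        (insert y (S \ (D0 ++ [z]).toFinset) ∪ (E0.reverse ++ E'.reverse).toFinset) := by
      intro a ha
      rw [Finset.mem_insert, hT2]
      by_cases h : a ∈ D0 ++ [z]
      · have := (hmemD a).1 h
        tauto
      · tauto
    exact hf3 a (hmem a ha) b (hmem b hb)

end MP7bd86d
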