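import Pool.Agent.Lib.MP_7bd86d_co.Stable
import Pool.Agent.Lib.MP_7bd86d_co.Brooks
import Pool.Agent.Lib.MP_7bd86d_co.Antihole

/-!
Every side of a clique cutset of a minimally non-2-divisible graph contains an induced claw.
-/

set_option autoImplicit false

namespace MP7bd86d

section General

variable {U : Type*} [Fintype U] [DecidableEq U]

/-- neighbourhoods are covered by two cliques -/
lemma nbhd_two {H : SimpleGraph U} (hc : NoClaw H) (hp : NoPent H)
    (hconn : ∀ S : Set U, S.Nonempty → Sᶜ.Nonempty → ∃ x ∈ S, ∃ y ∉ S, H.Adj x y)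
    {x y z : U} (hxy : x ≠ y) (hyz : y ≠ z) (hxz : x ≠ z) (hxy' : ¬ H.Adj x y)
    (hyz' : ¬ H.Adj y z) (hxz' : ¬ H.Adj x z) (v : U) :
    (H.induce (H.neighborSet v))ᶜ.Colorable 2 := by
  classical
  by_contra hcon
  obtain ⟨m, a, hodd, hm3, hinj, hadj⟩ := odd_cycle hcon
  have hv : ∀ i, H.Adj v (a i : U) := fun i => (a i).2
  have hinj' : Function.Injective (fun i => (a i : U)) := fun i j e => hinj (Subtype.ext e)
  have hH : ∀ i j, H.Adj (a i : U) (a j : U) ↔ i ≠ j ∧ j ≠ i + 1 ∧ i ≠ j + 1 := by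
    intro i j
    have h1 := hadj i j
    rw [SimpleGraph.compl_adj, SimpleGraph.comap_adj] at h1
    simp only [Function.Embedding.subtype_apply] at h1
    constructor
    · intro h2
      refine ⟨?_, ?_, ?_⟩
      · rintro rfl
        exact H.irrefl h2
      · intro h3
        exact (h1.2 (Or.inl h3)).2 h2
      · intro h3
        exact (h1.2 (Or.inr h3)).2 h2
    · rintro ⟨h2, h3, h4⟩
      by_contra h5
      rcases h1.1 ⟨fun e => h2 (hinj e), h5⟩ with h6 | h6
      · exact h3 h6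
      · exact h4 h6
  rcases (show m = 3 ∨ m = 5 ∨ 7 ≤ m by
    obtain ⟨t, ht⟩ := hodd
    omega) with rfl | rfl | h7
  · -- claw
    have n01 : ¬ H.Adj (a 0 : U) (a 1 : U) := by rw [hH]; decide
    have n12 : ¬ H.Adj (a 1 : U) (a 2 : U) := by rw [hH]; decide
    have n02 : ¬ H.Adj (a 0 : U) (a 2 : U) := by rw [hH]; decide
    have e01 : (a 0 : U) ≠ a 1 := fun e => absurd (hinj' e) (by decide)
    have e12 : (a 1 : U) ≠ a 2 := fun e => absurd (hinj' e) (by decide)
    have e02 : (a 0 : U) ≠ a 2 := fun e => absurd (hinj' e) (by decide)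
    rcases hc v (a 0) (a 1) (a 2) (hv 0) (hv 1) (hv 2) e01 e12 e02 with h | h | h
    · exact n01 h
    · exact n12 h
    · exact n02 h
  · -- pentagon
    exact hp (a 0) (a 2) (a 4) (a 1) (a 3) ((hH _ _).2 (by decide)) ((hH _ _).2 (by decide))
      ((hH _ _).2 (by decide)) ((hH _ _).2 (by decide)) ((hH _ _).2 (by decide))
      (by rw [hH]; decide) (by rw [hH]; decide) (by rw [hH]; decide) (by rw [hH]; decide)
      (by rw [hH]; decide)
  · -- antihole
    have hAH : AH H (fun i => (a i : U)) := ⟨hodd, h7, hinj', hH⟩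
    exact hAH.false hc hp hconn hxy hyz hxz hxy' hyz' hxz'

lemma degree_le {H : SimpleGraph U} [DecidableRel H.Adj] (v : U)
    (h : (H.induce (H.neighborSet v))ᶜ.Colorable 2) {n : ℕ}
    (hcl : ∀ K : Finset U, H.IsClique K → K.card ≤ n) :
    ((Finset.univ : Finset U).filter (H.Adj v)).card ≤ 2 * n - 2 := by
  classical
  obtain ⟨f⟩ := h
  let K : Fin 2 → Finset U := fun b => Finset.univ.filter (fun x => ∃ hx : H.Adj v x, f ⟨x, hx⟩ = b)
  have hK : ∀ b x, x ∈ K b ↔ ∃ hx : H.Adj v x, f ⟨x, hx⟩ = b := fun b x => by simp [K]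
  have hKcl : ∀ b, H.IsClique (K b) := by
    intro b x hx y hy hxy
    rw [Finset.mem_coe, hK] at hx hy
    obtain ⟨hx, hx'⟩ := hx
    obtain ⟨hy, hy'⟩ := hy
    by_contra hcon
    have : (H.induce (H.neighborSet v))ᶜ.Adj ⟨x, hx⟩ ⟨y, hy⟩ := by
      rw [SimpleGraph.compl_adj]
      exact ⟨fun e => hxy (congrArg Subtype.val e), hcon⟩
    exact f.valid this (hx'.trans hy'.symm)
  have hKn : ∀ b, (K b).card ≤ n - 1 := by
    intro b
    have hv : v ∉ K b := by
      rw [hK]
      rintro ⟨h, -⟩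
      exact H.irrefl h
    have := hcl (insert v (K b)) (by
      rw [Finset.coe_insert]
      refine (hKcl b).insert ?_
      intro y hy _
      rw [Finset.mem_coe, hK] at hy
      exact hy.1)
    rw [Finset.card_insert_of_notMem hv] at this
    omega
  have hsub : (Finset.univ : Finset U).filter (H.Adj v) ⊆ K 0 ∪ K 1 := by
    intro x hx
    rw [Finset.mem_filter] at hx
    rw [Finset.mem_union, hK, hK]
    have : ∀ b : Fin 2, b = 0 ∨ b = 1 := by decide
    rcases this (f ⟨x, hx.2⟩) with h | h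
    · exact Or.inl ⟨hx.2, h⟩
    · exact Or.inr ⟨hx.2, h⟩
  have h1 := (Finset.card_le_card hsub).trans (Finset.card_union_le _ _)
  have h2 := hKn 0
  have h3 := hKn 1
  omega

/-- a connected claw-free and pentagon-free graph with three pairwise non-adjacent vertices -/
theorem claw_free_colorable {H : SimpleGraph U} (hc : NoClaw H) (hp : NoPent H)
    (hconn : ∀ S : Set U, S.Nonempty → Sᶜ.Nonempty → ∃ x ∈ S, ∃ y ∉ S, H.Adj x y)
    {x y z : U} (hxy : x ≠ y) (hyz : y ≠ z) (hxz : x ≠ z) (hxy' : ¬ H.Adj x y)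
    (hyz' : ¬ H.Adj y z) (hxz' : ¬ H.Adj x z) {n : ℕ} (hn : 3 ≤ n)
    (hcl : ∀ K : Finset U, H.IsClique K → K.card ≤ n) : H.Colorable (2 * n - 2) := by
  classical
  obtain ⟨f, hf⟩ := brooks (G := H) (k := 2 * n - 2) (by omega) Finset.univ
    (fun v _ => degree_le v (nbhd_two hc hp hconn hxy hyz hxz hxy' hyz' hxz' v) hcl)
    (fun K _ hK => (hcl K hK).trans (by omega))
  exact ⟨SimpleGraph.Coloring.mk f (fun {u v} huv => hf u (Finset.mem_univ _) v
    (Finset.mem_univ _) huv)⟩

end General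

variable {V : Type*} [Finite V]

/-- THE RESULT ON CLAWS -/
theorem side_claw {G : SimpleGraph V} (h : MinNonTwoDivisible G) {C A : Set V}
    (hC : G.IsClique C) (hs : IsSide G C A) :
    ∃ v ∈ A ∪ C, ∃ x ∈ A ∪ C, ∃ y ∈ A ∪ C, ∃ z ∈ A ∪ C, G.Adj v x ∧ G.Adj v y ∧ G.Adj v z ∧
      x ≠ y ∧ y ≠ z ∧ x ≠ z ∧ ¬ G.Adj x y ∧ ¬ G.Adj y z ∧ ¬ G.Adj x z := by
  classical
  by_contra hcon
  have : Fintype ↥(A ∪ C) := Fintype.ofFinite _
  have hW := side_ne_univ hs
  -- no claw
  have hc : NoClaw (G.induce (A ∪ C)) := by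
    intro v a b c hva hvb hvc hab hbc hac
    by_contra h'
    push Not at h'
    exact hcon ⟨v, v.2, a, a.2, b, b.2, c, c.2, hva, hvb, hvc, fun e => hab (Subtype.ext e),
      fun e => hbc (Subtype.ext e), fun e => hac (Subtype.ext e), h'.1, h'.2.1, h'.2.2⟩
  -- no pentagon
  have hp : NoPent (G.induce (A ∪ C)) := by
    intro a b c d e h1 h2 h3 h4 h5 n1 n2 n3 n4 n5
    refine no_pentagon h hW ![(a : V), b, c, d, e] ?_ ?_ ?_
    · intro i
      fin_cases i
      · exact a.2
      · exact b.2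
      · exact c.2
      · exact d.2
      · exact e.2
    · intro i
      fin_cases i
      · exact h1
      · exact h2
      · exact h3
      · exact h4
      · exact h5
    · intro i
      fin_cases i
      · exact n1
      · exact n2
      · exact n3
      · exact n4
      · exact n5
  -- connected
  have hCne : C.Nonempty := by
    rw [Set.nonempty_iff_ne_empty]
    rintro rfl
    have := hs.two_le h
    rw [Set.ncard_empty] at this
    omega
  have half : ∀ S : Set ↥(A ∪ C), S.Nonempty → Disjoint (Subtype.val '' S) C →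
      ∃ x ∈ S, ∃ y ∉ S, (G.induce (A ∪ C)).Adj x y := by
    intro S hS hSC
    by_contra hcon'
    push Not at hcon'
    have hSA : ∀ x ∈ S, (x : V) ∈ A := by
      intro x hx
      rcases x.2 with h1 | h1
      · exact h1
      · exact absurd h1 (Set.disjoint_left.1 hSC ⟨x, hx, rfl⟩)
    have hside : IsSide G ∅ (Subtype.val '' S) := by
      refine ⟨fun x _ hx => hx, hS.image _, ?_, ?_⟩
      · obtain ⟨c, hc'⟩ := hCne
        exact ⟨c, fun hx => hx, fun hx => Set.disjoint_left.1 hSC hx hc'⟩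
      · rintro _ ⟨a, ha, rfl⟩ b ⟨-, hb⟩ hab
        by_cases hbW : b ∈ A ∪ C
        · exact hcon' a ha ⟨b, hbW⟩ (fun h' => hb ⟨⟨b, hbW⟩, h', rfl⟩) hab
        · exact hs.adj a (hSA a ha) b ⟨fun h' => hbW (Or.inr h'), fun h' => hbW (Or.inl h')⟩ hab
    have := hside.two_le h
    rw [Set.ncard_empty] at this
    omega
  have hconn : ∀ S : Set ↥(A ∪ C), S.Nonempty → Sᶜ.Nonempty →
      ∃ x ∈ S, ∃ y ∉ S, (G.induce (A ∪ C)).Adj x y := by
    intro S hS hS'
    by_cases h1 : Disjoint (Subtype.val '' S) C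
    · exact half S hS h1
    by_cases h2 : Disjoint (Subtype.val '' Sᶜ) C
    · obtain ⟨x, hx, y, hy, hxy⟩ := half Sᶜ hS' h2
      exact ⟨y, by simpa using hy, x, hx, hxy.symm⟩
    rw [Set.not_disjoint_iff] at h1 h2
    obtain ⟨_, ⟨a, ha, rfl⟩, haC⟩ := h1
    obtain ⟨_, ⟨b, hb, rfl⟩, hbC⟩ := h2
    have hne : (a : V) ≠ b := fun e => hb (Subtype.ext e ▸ ha)
    exact ⟨a, ha, b, hb, hC haC hbC hne⟩
  -- three pairwise non-adjacent vertices
  obtain ⟨x, hx, y, hy, z, hz, hxy, hyz, hxz, nxy, nyz, nxz⟩ := side_stable h hC hs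
  have hcl : ∀ K : Finset ↥(A ∪ C), (G.induce (A ∪ C)).IsClique K → K.card ≤ G.cliqueNum := by
    intro K hK
    have : G.IsClique (K.map (Function.Embedding.subtype _) : Finset V) := by
      intro x hx y hy hxy
      simp only [Finset.coe_map, Function.Embedding.subtype_apply, Set.mem_image,
        Finset.mem_coe] at hx hy
      obtain ⟨x, hx, rfl⟩ := hx
      obtain ⟨y, hy, rfl⟩ := hy
      exact hK hx hy (fun e => hxy (by rw [e]))
    have h2 := SimpleGraph.IsClique.card_le_cliqueNum (tc := this)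
    rwa [Finset.card_map] at h2
  have h4 := four_le h hC hs
  exact side_not_colorable h hC hs (claw_free_colorable hc hp hconn (x := ⟨x, hx⟩) (y := ⟨y, hy⟩)
    (z := ⟨z, hz⟩) (fun e => hxy (congrArg Subtype.val e)) (fun e => hyz (congrArg Subtype.val e))
    (fun e => hxz (congrArg Subtype.val e)) nxy nyz nxz (by omega) hcl)

end MP7bd86d
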