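import Mathlib

/-!
Sides without three pairwise non-adjacent vertices. `F` is the complement of the side: a graph
without triangles and without closed walks of length five. Cliques of the side are independent
sets of `F`.
-/

set_option autoImplicit false

namespace MP7bd86d

variable {U : Type*}

/-- independent set of `F` -/
def Ind (F : SimpleGraph U) (I : Finset U) : Prop := ∀ x ∈ I, ∀ y ∈ I, ¬ F.Adj x y

lemma Ind.mono {F : SimpleGraph U} {I J : Finset U} (h : Ind F J) (hs : I ⊆ J) : Ind F I :=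
  fun x hx y hy => h x (hs hx) y (hs hy)

lemma Ind.insert [DecidableEq U] {F : SimpleGraph U} {I : Finset U} (h : Ind F I) {z : U}
    (hz : ∀ x ∈ I, ¬ F.Adj z x) : Ind F (insert z I) := by
  intro x hx y hy
  rw [Finset.mem_insert] at hx hy
  rcases hx with rfl | hx <;> rcases hy with rfl | hy
  · exact F.irrefl
  · exact hz y hy
  · exact fun h' => hz x hx h'.symm
  · exact h x hx y hy

/-- the standing assumptions on the complement of a side -/
structure Good (F : SimpleGraph U) (n : ℕ) : Prop where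
  tri : ∀ x y z, F.Adj x y → F.Adj y z → ¬ F.Adj x z
  pent : ∀ a b c d e, F.Adj a b → F.Adj b c → F.Adj c d → F.Adj d e → ¬ F.Adj e a
  card : ∀ I : Finset U, Ind F I → I.card ≤ n

/-- the set `P` and its complement contain no independent set of `n` elements -/
def Splits (F : SimpleGraph U) (n : ℕ) (P : Set U) : Prop :=
  (∀ I : Finset U, (∀ x ∈ I, x ∈ P) → Ind F I → I.card ≠ n) ∧
  (∀ I : Finset U, (∀ x ∈ I, x ∉ P) → Ind F I → I.card ≠ n)

lemma Splits.symm {F : SimpleGraph U} {n : ℕ} {P : Set U} (h : Splits F n P) :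
    Splits F n Pᶜ :=
  ⟨fun I hI => h.2 I (fun x hx => hI x hx),
   fun I hI => h.1 I (fun x hx => by simpa using hI x hx)⟩

/-- two vertices with a common neighbour: the union of the neighbourhoods is independent -/
lemma Good.cn {F : SimpleGraph U} {n : ℕ} (h : Good F n) {z w u : U} (hz : F.Adj z u)
    (hw : F.Adj w u) {a b : U} (ha : F.Adj z a) (hb : F.Adj w b) : ¬ F.Adj a b :=
  fun hab => h.pent z a b w u ha hab hb.symm hw hz.symm

lemma Good.nbr {F : SimpleGraph U} {n : ℕ} (h : Good F n) {z a b : U} (ha : F.Adj z a)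
    (hb : F.Adj z b) : ¬ F.Adj a b := fun hab => h.tri a z b ha.symm hb hab

variable [DecidableEq U]

/-- a test partition: if it fails then `z` has a common neighbour with every vertex of `C₂` -/
lemma Good.test {F : SimpleGraph U} {n : ℕ} (h : Good F n) {C1 C2 : Finset U}
    (hd : ∀ x ∈ C1, x ∉ C2) (hC : Ind F (C1 ∪ C2))
    (hno : ∀ P : Set U, (∀ x ∈ C1, x ∈ P) → (∀ x ∈ C2, x ∉ P) → ¬ Splits F n P)
    {z : U} (hz : z ∉ C2) (hz' : ∀ w ∈ C2, ¬ F.Adj z w) {w : U} (hw : w ∈ C2) :
    ∃ u, F.Adj z u ∧ F.Adj w u := by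
  classical
  have hP := hno {x | x ∈ C1 ∨ x = z ∨ F.Adj z x} (fun x hx => Or.inl hx) (by
    rintro x hx (h' | rfl | h')
    · exact hd x h' hx
    · exact hz hx
    · exact hz' x hx h')
  have h2 : ∀ I : Finset U, (∀ x ∈ I, x ∉ {x | x ∈ C1 ∨ x = z ∨ F.Adj z x}) → Ind F I →
      I.card ≠ n := by
    intro I hI hind hcard
    have hzI : z ∉ I := fun h' => hI z h' (Or.inr (Or.inl rfl))
    have := h.card (insert z I) (hind.insert fun x hx h' => hI x hx (Or.inr (Or.inr h')))
    rw [Finset.card_insert_of_notMem hzI] at this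
    omega
  have h3 : ∃ I : Finset U, (∀ x ∈ I, x ∈ {x | x ∈ C1 ∨ x = z ∨ F.Adj z x}) ∧ Ind F I ∧
      I.card = n := by
    by_contra hcon
    push Not at hcon
    exact hP ⟨fun I hI hind => hcon I hI hind, h2⟩
  obtain ⟨I, hI, hind, hcard⟩ := h3
  by_contra hcn
  push Not at hcn
  have hwI : w ∉ I := by
    intro h'
    rcases hI w h' with h'' | rfl | h''
    · exact hd w h'' hw
    · exact hz hw
    · exact hz' w hw h''
  have := h.card (insert w I) (hind.insert fun x hx h' => by
    rcases hI x hx with h'' | rfl | h''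
    · exact hC w (Finset.mem_union_right _ hw) x (Finset.mem_union_left _ h'') h'
    · exact hz' w hw h'.symm
    · exact hcn x h'' h')
  rw [Finset.card_insert_of_notMem hwI] at this
  omega

/-- both parts nonempty -/
lemma Good.two_parts [Fintype U] {F : SimpleGraph U} {n : ℕ} (h : Good F n) {C1 C2 : Finset U}
    (hd : ∀ x ∈ C1, x ∉ C2) (hC : Ind F (C1 ∪ C2)) (h1 : C1.card < n) (h2 : C2.card < n)
    (e1 : C1.Nonempty) (e2 : C2.Nonempty)
    (hno : ∀ P : Set U, (∀ x ∈ C1, x ∈ P) → (∀ x ∈ C2, x ∉ P) → ¬ Splits F n P) :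
    ∃ K : Finset U, Ind F K ∧ Ind F Kᶜ := by
  classical
  have t1 : ∀ z, z ∉ C2 → (∀ w ∈ C2, ¬ F.Adj z w) → ∀ w ∈ C2, ∃ u, F.Adj z u ∧ F.Adj w u :=
    fun z hz hz' w hw => h.test hd hC hno hz hz' hw
  have t2 : ∀ z, z ∉ C1 → (∀ w ∈ C1, ¬ F.Adj z w) → ∀ w ∈ C1, ∃ u, F.Adj z u ∧ F.Adj w u := by
    intro z hz hz' w hw
    refine h.test (C1 := C2) (C2 := C1) (fun x hx hx' => hd x hx' hx)
      (by rwa [Finset.union_comm]) ?_ hz hz' hw
    intro P hP1 hP2 hs
    exact hno Pᶜ (fun x hx => hP2 x hx) (fun x hx => by simpa using hP1 x hx) hs.symm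
  have c12 : ∀ x ∈ C1, ∀ y ∈ C2, ¬ F.Adj x y := fun x hx y hy =>
    hC x (Finset.mem_union_left _ hx) y (Finset.mem_union_right _ hy)
  have c11 : ∀ x ∈ C1, ∀ y ∈ C1, ¬ F.Adj x y := fun x hx y hy =>
    hC x (Finset.mem_union_left _ hx) y (Finset.mem_union_left _ hy)
  have c22 : ∀ x ∈ C2, ∀ y ∈ C2, ¬ F.Adj x y := fun x hx y hy =>
    hC x (Finset.mem_union_right _ hx) y (Finset.mem_union_right _ hy)
  -- neighbourhoods of the two parts
  have key : ∀ z ∈ C1, ∀ w ∈ C2, ∀ a b, F.Adj z a → F.Adj w b → ¬ F.Adj a b := by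
    intro z hz w hw a b ha hb
    obtain ⟨u, hu, hu'⟩ := t1 z (hd z hz) (c12 z hz) w hw
    exact h.cn hu hu' ha hb
  have n12 : ∀ z ∈ C1, ∀ a, F.Adj z a → ∃ w ∈ C2, F.Adj w a := by
    intro z hz a ha
    by_contra hcon
    push Not at hcon
    obtain ⟨w, hw⟩ := e2
    have ha2 : a ∉ C2 := fun h' => c12 z hz a h' ha
    obtain ⟨b, hb, hb'⟩ := t1 a ha2 (fun w hw h' => hcon w hw h'.symm) w hw
    exact key z hz w hw a b ha hb' hb
  have n21 : ∀ z ∈ C2, ∀ a, F.Adj z a → ∃ w ∈ C1, F.Adj w a := by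
    intro z hz a ha
    by_contra hcon
    push Not at hcon
    obtain ⟨w, hw⟩ := e1
    have ha1 : a ∉ C1 := fun h' => c12 a h' z hz ha.symm
    obtain ⟨b, hb, hb'⟩ := t2 a ha1 (fun w hw h' => hcon w hw h'.symm) w hw
    exact key w hw z hz b a hb' ha hb.symm
  -- the set `R`
  let R : Finset U := Finset.univ.filter (fun a => ∃ w ∈ C1, F.Adj w a)
  have hR1 : ∀ a, a ∈ R ↔ ∃ w ∈ C1, F.Adj w a := fun a => by simp [R]
  have hR2 : ∀ a, a ∈ R ↔ ∃ w ∈ C2, F.Adj w a := by
    intro a
    rw [hR1]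
    constructor
    · rintro ⟨w, hw, hwa⟩
      exact n12 w hw a hwa
    · rintro ⟨w, hw, hwa⟩
      exact n21 w hw a hwa
  refine ⟨R, ?_, ?_⟩
  · intro a ha b hb
    obtain ⟨z, hz, hza⟩ := (hR1 a).1 ha
    obtain ⟨w, hw, hwb⟩ := (hR2 b).1 hb
    exact key z hz w hw a b hza hwb
  · intro a ha b hb hab
    rw [Finset.mem_compl] at ha hb
    have ha1 : ∀ w ∈ C1, ¬ F.Adj w a := fun w hw h' => ha ((hR1 a).2 ⟨w, hw, h'⟩)
    have ha2 : ∀ w ∈ C2, ¬ F.Adj w a := fun w hw h' => ha ((hR2 a).2 ⟨w, hw, h'⟩)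
    have hb1 : ∀ w ∈ C1, ¬ F.Adj w b := fun w hw h' => hb ((hR1 b).2 ⟨w, hw, h'⟩)
    have hb2 : ∀ w ∈ C2, ¬ F.Adj w b := fun w hw h' => hb ((hR2 b).2 ⟨w, hw, h'⟩)
    have ha1' : a ∉ C1 := fun h' => hb1 a h' hab
    have ha2' : a ∉ C2 := fun h' => hb2 a h' hab
    have hb1' : b ∉ C1 := fun h' => ha1 b h' hab.symm
    have hb2' : b ∉ C2 := fun h' => ha2 b h' hab.symm
    obtain ⟨w, hw⟩ := e2
    obtain ⟨x, hx, hx'⟩ := t1 a ha2' (fun w hw h' => ha2 w hw h'.symm) w hw
    obtain ⟨y, hy, hy'⟩ := t1 b hb2' (fun w hw h' => hb2 w hw h'.symm) w hw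
    exact h.cn hx hx' hab hy' hy

/-- the other case: a maximal independent set, one part empty -/
lemma Good.one_part [Fintype U] {F : SimpleGraph U} {n : ℕ} (h : Good F n) {C : Finset U}
    (hC : Ind F C) (h1 : C.card < n) (hmax : ∀ z, z ∉ C → ∃ w ∈ C, F.Adj z w)
    (hno : ∀ P : Set U, (∀ x ∈ C, x ∉ P) → ¬ Splits F n P) :
    ∃ K : Finset U, Ind F K ∧ Ind F Kᶜ := by
  classical
  -- excess
  let NC : Finset U → Finset U := fun X => C.filter (fun c => ∃ x ∈ X, F.Adj x c)
  have hNC : ∀ X c, c ∈ NC X ↔ c ∈ C ∧ ∃ x ∈ X, F.Adj x c := fun X c => by simp [NC]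
  -- upper bound for the excess
  have hup : ∀ X : Finset U, Ind F X → (∀ x ∈ X, x ∉ C) →
      X.card + C.card ≤ n + (NC X).card := by
    intro X hX hXC
    have hind : Ind F (X ∪ (C \ NC X)) := by
      intro a ha b hb hab
      rw [Finset.mem_union, Finset.mem_sdiff] at ha hb
      rcases ha with ha | ⟨ha, ha'⟩ <;> rcases hb with hb | ⟨hb, hb'⟩
      · exact hX a ha b hb hab
      · exact hb' ((hNC X b).2 ⟨hb, a, ha, hab⟩)
      · exact ha' ((hNC X a).2 ⟨ha, b, hb, hab.symm⟩)
      · exact hC a ha b hb hab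
    have hdisj : Disjoint X (C \ NC X) := by
      rw [Finset.disjoint_left]
      intro a ha ha'
      exact hXC a ha (Finset.mem_sdiff.1 ha').1
    have h2 := h.card _ hind
    rw [Finset.card_union_of_disjoint hdisj] at h2
    have h3 : (C \ NC X).card + (NC X).card = C.card :=
      Finset.card_sdiff_add_card_eq_card (Finset.filter_subset _ _)
    omega
  -- existence
  have hex : ∀ z, ∃ X : Finset U, (∀ x ∈ X, F.Adj z x ∧ x ∉ C) ∧
      X.card + C.card = n + (NC X).card := by
    intro z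
    have hP := hno {x | ¬ (x ∈ C ∨ x = z ∨ F.Adj z x)} (fun x hx h' => h' (Or.inl hx))
    have h2 : ∀ I : Finset U, (∀ x ∈ I, x ∈ {x | ¬ (x ∈ C ∨ x = z ∨ F.Adj z x)}) → Ind F I →
        I.card ≠ n := by
      intro I hI hind hcard
      have hzI : z ∉ I := fun h' => hI z h' (Or.inr (Or.inl rfl))
      have := h.card (insert z I) (hind.insert fun x hx h' => hI x hx (Or.inr (Or.inr h')))
      rw [Finset.card_insert_of_notMem hzI] at this
      omega
    have h3 : ∃ I : Finset U, (∀ x ∈ I, x ∉ {x | ¬ (x ∈ C ∨ x = z ∨ F.Adj z x)}) ∧ Ind F I ∧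
        I.card = n := by
      by_contra hcon
      exact hP ⟨h2, fun I hI hind hcard => hcon ⟨I, hI, hind, hcard⟩⟩
    obtain ⟨I, hI, hind, hcard⟩ := h3
    have hI' : ∀ x ∈ I, x ∈ C ∨ x = z ∨ F.Adj z x := by
      intro x hx
      by_contra hcon
      exact hI x hx hcon
    have hzI : z ∈ I → z ∈ C := by
      intro hz
      by_contra hzC
      -- then `I ⊆ C ∪ {z}`
      have hsub : I ⊆ insert z C := by
        intro x hx
        rcases hI' x hx with h' | rfl | h'
        · exact Finset.mem_insert_of_mem h'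
        · exact Finset.mem_insert_self _ _
        · exact absurd h' (hind z hz x hx)
      have h4 : I = insert z C := by
        apply Finset.eq_of_subset_of_card_le hsub
        rw [Finset.card_insert_of_notMem hzC]
        omega
      obtain ⟨w, hw, hzw⟩ := hmax z hzC
      exact hind z hz w (h4 ▸ Finset.mem_insert_of_mem hw) hzw
    refine ⟨I \ C, ?_, ?_⟩
    · intro x hx
      rw [Finset.mem_sdiff] at hx
      refine ⟨?_, hx.2⟩
      rcases hI' x hx.1 with h' | rfl | h'
      · exact absurd h' hx.2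
      · exact absurd (hzI hx.1) hx.2
      · exact h'
    · apply le_antisymm
      · exact hup _ (hind.mono Finset.sdiff_subset) (fun x hx => (Finset.mem_sdiff.1 hx).2)
      · have h5 : (I ∩ C).card + (NC (I \ C)).card ≤ C.card := by
          rw [← Finset.card_union_of_disjoint]
          · apply Finset.card_le_card
            intro x hx
            rw [Finset.mem_union] at hx
            rcases hx with hx | hx
            · exact (Finset.mem_inter.1 hx).2
            · exact ((hNC _ _).1 hx).1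
          · rw [Finset.disjoint_left]
            intro x hx hx'
            obtain ⟨-, y, hy, hyx⟩ := (hNC _ _).1 hx'
            exact hind y (Finset.mem_sdiff.1 hy).1 x (Finset.mem_inter.1 hx).1 hyx
        have h6 : (I \ C).card + (I ∩ C).card = I.card := Finset.card_sdiff_add_card_inter I C
        omega
  -- minimal choice
  have hmin : ∀ z, ∃ X : Finset U, ((∀ x ∈ X, F.Adj z x ∧ x ∉ C) ∧
      X.card + C.card = n + (NC X).card) ∧ ∀ Y : Finset U, (∀ x ∈ Y, F.Adj z x ∧ x ∉ C) →
      Y.card + C.card = n + (NC Y).card → X.card ≤ Y.card := by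
    intro z
    have hne : ((Finset.univ : Finset (Finset U)).filter (fun X => (∀ x ∈ X, F.Adj z x ∧ x ∉ C) ∧
      X.card + C.card = n + (NC X).card)).Nonempty := by
      obtain ⟨X, hX⟩ := hex z
      exact ⟨X, Finset.mem_filter.2 ⟨Finset.mem_univ _, hX⟩⟩
    obtain ⟨X, hX, hX'⟩ := Finset.exists_min_image _ Finset.card hne
    refine ⟨X, (Finset.mem_filter.1 hX).2, fun Y hY hY' => hX' Y ?_⟩
    exact Finset.mem_filter.2 ⟨Finset.mem_univ _, hY, hY'⟩
  choose X hX hXmin using hmin
  have hXne : ∀ z, (X z).Nonempty := by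
    intro z
    rw [Finset.nonempty_iff_ne_empty]
    intro e
    have := (hX z).2
    rw [e] at this
    have h2 : NC ∅ = ∅ := by
      ext c
      simp [hNC]
    rw [h2] at this
    simp only [Finset.card_empty] at this
    omega
  -- common neighbour
  have hsub : ∀ z w u, F.Adj z u → F.Adj w u → X z ⊆ X w := by
    intro z w u hz hw
    have hind : Ind F (X z ∪ X w) := by
      intro a ha b hb
      rw [Finset.mem_union] at ha hb
      rcases ha with ha | ha <;> rcases hb with hb | hb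
      · exact h.nbr ((hX z).1 a ha).1 ((hX z).1 b hb).1
      · exact h.cn hz hw ((hX z).1 a ha).1 ((hX w).1 b hb).1
      · exact h.cn hw hz ((hX w).1 a ha).1 ((hX z).1 b hb).1
      · exact h.nbr ((hX w).1 a ha).1 ((hX w).1 b hb).1
    have b1 := hup (X z ∪ X w) hind (by
      intro x hx
      rw [Finset.mem_union] at hx
      rcases hx with hx | hx
      · exact ((hX z).1 x hx).2
      · exact ((hX w).1 x hx).2)
    have b2 := hup (X z ∩ X w) (hind.mono (Finset.inter_subset_left.trans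
      Finset.subset_union_left)) (fun x hx => ((hX z).1 x (Finset.mem_inter.1 hx).1).2)
    have e1 := Finset.card_union_add_card_inter (X z) (X w)
    have e2 := Finset.card_union_add_card_inter (NC (X z)) (NC (X w))
    have e3 : (NC (X z ∪ X w)).card ≤ (NC (X z) ∪ NC (X w)).card := by
      apply Finset.card_le_card
      intro c hc
      obtain ⟨hc1, x, hx, hxc⟩ := (hNC _ _).1 hc
      rw [Finset.mem_union] at hx ⊢
      rcases hx with hx | hx
      · exact Or.inl ((hNC _ _).2 ⟨hc1, x, hx, hxc⟩)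
      · exact Or.inr ((hNC _ _).2 ⟨hc1, x, hx, hxc⟩)
    have e4 : (NC (X z ∩ X w)).card ≤ (NC (X z) ∩ NC (X w)).card := by
      apply Finset.card_le_card
      intro c hc
      obtain ⟨hc1, x, hx, hxc⟩ := (hNC _ _).1 hc
      rw [Finset.mem_inter] at hx ⊢
      exact ⟨(hNC _ _).2 ⟨hc1, x, hx.1, hxc⟩, (hNC _ _).2 ⟨hc1, x, hx.2, hxc⟩⟩
    have f1 := (hX z).2
    have f2 := (hX w).2
    have f3 : (X z ∩ X w).card + C.card = n + (NC (X z ∩ X w)).card := by omega
    have f4 := hXmin z (X z ∩ X w) (fun x hx => (hX z).1 x (Finset.mem_inter.1 hx).1) f3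
    have f5 : X z ∩ X w = X z := Finset.eq_of_subset_of_card_le Finset.inter_subset_left f4
    intro x hx
    rw [← f5] at hx
    exact (Finset.mem_inter.1 hx).2
  have heq : ∀ z w u, F.Adj z u → F.Adj w u → X z = X w := fun z w u hz hw =>
    Finset.Subset.antisymm (hsub z w u hz hw) (hsub w z u hw hz)
  -- a neighbour of every vertex
  have hnb : ∀ z, ∃ u, F.Adj z u := fun z => by
    obtain ⟨u, hu⟩ := hXne z
    exact ⟨u, ((hX z).1 u hu).1⟩
  choose nb hnb using hnb
  have hY : ∀ z w, F.Adj z w → X (nb z) = X w := fun z w hzw =>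
    heq (nb z) w z (hnb z).symm hzw.symm
  have hdiff : ∀ z w, F.Adj z w → X z ≠ X w := by
    intro z w hzw e
    obtain ⟨x, hx⟩ := hXne z
    have h2 := ((hX z).1 x hx).1
    have h3 := ((hX w).1 x (e ▸ hx)).1
    exact h.nbr hzw h2 h3
  -- an injection into a linear order
  obtain ⟨r, hr⟩ : ∃ r : Finset U → ℕ, Function.Injective r := by
    obtain ⟨e⟩ := Fintype.truncEquivFin (Finset U)
    exact ⟨fun S => (e S : ℕ), fun a b hab => e.injective (Fin.ext hab)⟩
  have hflip : ∀ z w, F.Adj z w → (r (X z) < r (X (nb z)) ↔ ¬ r (X w) < r (X (nb w))) := by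
    intro z w hzw
    rw [hY z w hzw, hY w z hzw.symm]
    have : r (X z) ≠ r (X w) := fun e => hdiff z w hzw (hr e)
    omega
  refine ⟨Finset.univ.filter (fun z => r (X z) < r (X (nb z))), ?_, ?_⟩
  · intro z hz w hw hzw
    simp only [Finset.mem_filter, Finset.mem_univ, true_and] at hz hw
    exact (hflip z w hzw).1 hz hw
  · intro z hz w hw hzw
    simp only [Finset.mem_compl, Finset.mem_filter, Finset.mem_univ, true_and] at hz hw
    exact hz ((hflip z w hzw).2 hw)

/-- the alternative: the given splitting of the independent set extends or the vertices are the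
union of two independent sets -/
theorem Good.flex [Fintype U] {F : SimpleGraph U} {n : ℕ} (h : Good F n) {C1 C2 : Finset U}
    (hd : ∀ x ∈ C1, x ∉ C2) (hC : Ind F (C1 ∪ C2)) (h1 : C1.card < n) (h2 : C2.card < n)
    (e : 2 ≤ (C1 ∪ C2).card) :
    (∃ P : Set U, (∀ x ∈ C1, x ∈ P) ∧ (∀ x ∈ C2, x ∉ P) ∧ Splits F n P) ∨
      ∃ K : Finset U, Ind F K ∧ Ind F Kᶜ := by
  classical
  -- one part empty
  have one : ∀ C : Finset U, Ind F C → C.card < n → 2 ≤ C.card →
      (∃ P : Set U, (∀ x ∈ C, x ∉ P) ∧ Splits F n P) ∨ ∃ K : Finset U, Ind F K ∧ Ind F Kᶜ := by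
    intro C hC h1 h2
    by_contra hcon
    push Not at hcon
    obtain ⟨hcon, hcon'⟩ := hcon
    by_cases hmax : ∀ z, z ∉ C → ∃ w ∈ C, F.Adj z w
    · obtain ⟨K, hK, hK'⟩ := h.one_part hC h1 hmax hcon
      exact hcon' K hK hK'
    · push Not at hmax
      obtain ⟨z, hz, hz'⟩ := hmax
      obtain ⟨K, hK, hK'⟩ := h.two_parts (C1 := {z}) (C2 := C) (by
          intro x hx
          rw [Finset.mem_singleton] at hx
          rw [hx]
          exact hz) (by
          rw [← Finset.insert_eq]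
          exact hC.insert hz') (by
          rw [Finset.card_singleton]
          omega) h1 (Finset.singleton_nonempty z) (Finset.card_pos.1 (by omega))
        (fun P _ hP => hcon P hP)
      exact hcon' K hK hK'
  by_contra hcon
  push Not at hcon
  obtain ⟨hcon, hcon'⟩ := hcon
  rcases C1.eq_empty_or_nonempty with rfl | e1
  · rw [Finset.empty_union] at hC e
    rcases one C2 hC h2 e with ⟨P, hP, hP'⟩ | ⟨K, hK, hK'⟩
    · exact hcon P (by simp) hP hP'
    · exact hcon' K hK hK'
  · rcases C2.eq_empty_or_nonempty with rfl | e2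
    · rw [Finset.union_empty] at hC e
      rcases one C1 hC h1 e with ⟨P, hP, hP'⟩ | ⟨K, hK, hK'⟩
      · exact hcon Pᶜ (fun x hx => hP x hx) (by simp) hP'.symm
      · exact hcon' K hK hK'
    · obtain ⟨K, hK, hK'⟩ := h.two_parts hd hC h1 h2 e1 e2 hcon
      exact hcon' K hK hK'

end MP7bd86d
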