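import Pool.Agent.Lib.MP_7bd86d_co.Basic
import Pool.Agent.Lib.MP_7bd86d_co.Flex

/-!
Every side of a clique cutset of a minimally non-2-divisible graph contains three pairwise
non-adjacent vertices.
-/

set_option autoImplicit false

namespace MP7bd86d

/-! ### Graphs covered by two cliques -/

section TwoCliques

variable {U : Type*} [Fintype U]

lemma merge_one {H : SimpleGraph U} {x y : U} (hxy : x ≠ y) (hn : ¬ H.Adj x y) :
    H.Colorable (Fintype.card U - 1) := by
  classical
  have c : H.Coloring {u : U // u ≠ y} := SimpleGraph.Coloring.mk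
    (fun u => if h : u = y then ⟨x, hxy⟩ else ⟨u, h⟩) (by
      intro u v huv e
      by_cases h1 : u = y <;> by_cases h2 : v = y
      · exact huv.ne (h1.trans h2.symm)
      · simp only [h1, h2, dite_true, dite_false, Subtype.mk.injEq] at e
        rw [h1, ← e] at huv
        exact hn huv.symm
      · simp only [h1, h2, dite_true, dite_false, Subtype.mk.injEq] at e
        rw [h2, e] at huv
        exact hn huv
      · simp only [h1, h2, dite_false, Subtype.mk.injEq] at e
        exact huv.ne e)
  have := c.colorable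
  rwa [Fintype.card_subtype_compl, Fintype.card_subtype_eq] at this

lemma merge_two {H : SimpleGraph U} {x1 y1 x2 y2 : U} (h1 : x1 ≠ y1) (h2 : x2 ≠ y2)
    (h3 : x1 ≠ y2) (h4 : x2 ≠ y1) (hx : x1 ≠ x2) (hy : y1 ≠ y2) (n1 : ¬ H.Adj x1 y1)
    (n2 : ¬ H.Adj x2 y2) : H.Colorable (Fintype.card U - 2) := by
  classical
  have c : H.Coloring {u : U // u ∉ ({y1, y2} : Finset U)} := SimpleGraph.Coloring.mk
    (fun u => if e1 : u = y1 then ⟨x1, by simp [h1, h3]⟩ else
      if e2 : u = y2 then ⟨x2, by simp [h2, h4]⟩ else ⟨u, by simp [e1, e2]⟩) (by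
      intro u v huv e
      by_cases e1 : u = y1
      · by_cases e2 : v = y1
        · exact huv.ne (e1.trans e2.symm)
        · by_cases e3 : v = y2
          · simp only [e1, e2, e3, hy.symm, dite_true, dite_false, Subtype.mk.injEq] at e
            exact hx e
          · simp only [e1, e2, e3, dite_true, dite_false, Subtype.mk.injEq] at e
            rw [e1, ← e] at huv
            exact n1 huv.symm
      · by_cases e2 : v = y1
        · by_cases e3 : u = y2
          · simp only [e2, e3, hy.symm, dite_true, dite_false, Subtype.mk.injEq] at e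
            exact hx e.symm
          · simp only [e1, e2, e3, dite_true, dite_false, Subtype.mk.injEq] at e
            rw [e2, e] at huv
            exact n1 huv
        · by_cases e3 : u = y2
          · by_cases e4 : v = y2
            · exact huv.ne (e3.trans e4.symm)
            · simp only [hy.symm, e2, e3, e4, dite_true, dite_false, Subtype.mk.injEq] at e
              rw [e3, ← e] at huv
              exact n2 huv.symm
          · by_cases e4 : v = y2
            · simp only [hy.symm, e1, e3, e4, dite_true, dite_false, Subtype.mk.injEq] at e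
              rw [e4, e] at huv
              exact n2 huv
            · simp only [e1, e2, e3, e4, dite_false, Subtype.mk.injEq] at e
              exact huv.ne e)
  have := c.colorable
  have e : Fintype.card {u : U // u ∉ ({y1, y2} : Finset U)} = Fintype.card U - 2 := by
    rw [Fintype.card_subtype_compl, Fintype.card_coe, Finset.card_pair hy]
  rwa [e] at this

lemma two_cliques [DecidableEq U] {H : SimpleGraph U} {n : ℕ} (hn : 2 ≤ n)
    (hcl : ∀ K : Finset U, H.IsClique K → K.card ≤ n) {K : Finset U} (h1 : H.IsClique K)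
    (h2 : H.IsClique (Kᶜ : Finset U)) : H.Colorable (2 * n - 2) := by
  classical
  have c1 := hcl K h1
  have c2 := hcl _ h2
  have hN : K.card + (Kᶜ).card = Fintype.card U := Finset.card_add_card_compl K
  rcases (show Fintype.card U ≤ 2 * n - 2 ∨ Fintype.card U = 2 * n - 1 ∨
    Fintype.card U = 2 * n by omega) with h | h | h
  · exact H.colorable_of_fintype.mono h
  · have : ∃ x y, x ≠ y ∧ ¬ H.Adj x y := by
      by_contra hcon
      push Not at hcon
      have := hcl Finset.univ (fun x _ y _ hxy => hcon x y hxy)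
      rw [Finset.card_univ] at this
      omega
    obtain ⟨x, y, hxy, hn'⟩ := this
    refine (merge_one hxy hn').mono (by omega)
  · have hK : K.card = n := by omega
    have hK' : (Kᶜ).card = n := by omega
    have a1 : ∀ x ∈ K, ∃ y ∈ Kᶜ, ¬ H.Adj x y := by
      intro x hx
      by_contra hcon
      push Not at hcon
      have hxK : x ∉ Kᶜ := by simpa using hx
      have := hcl (insert x Kᶜ) (by
        rw [Finset.coe_insert]
        exact h2.insert (fun y hy _ => hcon y hy))
      rw [Finset.card_insert_of_notMem hxK] at this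
      omega
    have a2 : ∀ y ∈ Kᶜ, ∃ x ∈ K, ¬ H.Adj x y := by
      intro y hy
      by_contra hcon
      push Not at hcon
      have hyK : y ∉ K := by simpa using hy
      have := hcl (insert y K) (by
        rw [Finset.coe_insert]
        exact h1.insert (fun x hx _ => (hcon x hx).symm))
      rw [Finset.card_insert_of_notMem hyK] at this
      omega
    obtain ⟨x1, hx1, x2, hx2, hx⟩ := Finset.one_lt_card.1 (show 1 < K.card by omega)
    obtain ⟨y1, hy1, hn1⟩ := a1 x1 hx1
    obtain ⟨y2, hy2, hn2⟩ := a1 x2 hx2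
    have hne : ∀ x ∈ K, ∀ y ∈ Kᶜ, x ≠ y := by
      rintro x hx y hy rfl
      exact Finset.mem_compl.1 hy hx
    suffices h : H.Colorable (Fintype.card U - 2) from h.mono (by omega)
    by_cases hy : y1 = y2
    · obtain ⟨y', hy', hyy⟩ := Finset.exists_mem_ne (show 1 < (Kᶜ).card by omega) y1
      obtain ⟨x', hx', hn'⟩ := a2 y' hy'
      by_cases hxx : x' = x1
      · subst hxx
        exact merge_two (hne x2 hx2 y1 hy1) (hne x' hx' y' hy') (hne x2 hx2 y' hy')
          (hne x' hx' y1 hy1) hx.symm hyy.symm (hy ▸ hn2) hn'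
      · exact merge_two (hne x1 hx1 y1 hy1) (hne x' hx' y' hy') (hne x1 hx1 y' hy')
          (hne x' hx' y1 hy1) (Ne.symm hxx) hyy.symm hn1 hn'
    · exact merge_two (hne x1 hx1 y1 hy1) (hne x2 hx2 y2 hy2) (hne x1 hx1 y2 hy2)
          (hne x2 hx2 y1 hy1) hx hy hn1 hn2

end TwoCliques

/-! ### No pentagon -/

variable {V : Type*} [Finite V]

lemma five_aux : ∀ J : Finset (Fin 5), (∀ i ∈ J, i + 2 ∉ J) → J.card ≤ 2 := by decide

lemma bool_five : ∀ b0 b1 b2 b3 b4 : Bool, b0 ≠ b1 → b1 ≠ b2 → b2 ≠ b3 → b3 ≠ b4 → b4 ≠ b0 →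
    False := by
  intro b0 b1 b2 b3 b4
  cases b0 <;> cases b1 <;> cases b2 <;> cases b3 <;> cases b4 <;> simp

lemma no_pentagon {G : SimpleGraph V} (h : MinNonTwoDivisible G) {S : Set V}
    (hS : S ≠ Set.univ) (v : Fin 5 → V) (hv : ∀ i, v i ∈ S)
    (hadj : ∀ i, G.Adj (v i) (v (i + 1))) (hnadj : ∀ i, ¬ G.Adj (v i) (v (i + 2))) : False := by
  classical
  have hne : ∀ i, v i ≠ v (i + 2) := by
    intro i e
    have h1 := hadj (i + 2)
    rw [← e] at h1
    have h2 := hnadj (i + 3)
    apply h2
    have e1 : i + 3 + 2 = i := by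
      have : ∀ i : Fin 5, i + 3 + 2 = i := by decide
      exact this i
    have e2 : i + 2 + 1 = i + 3 := by
      have : ∀ i : Fin 5, i + 2 + 1 = i + 3 := by decide
      exact this i
    rw [e1]
    rw [e2] at h1
    exact h1.symm
  have hT : Set.range v ≠ Set.univ := ssub_ne_univ (by rintro _ ⟨i, rfl⟩; exact hv i) hS
  have hno : ¬ HasC G (Set.range v) 3 := by
    rintro ⟨K, hK, hKn⟩
    have h1 : K ⊆ (Finset.univ.filter (fun i => v i ∈ K)).image v := by
      intro x hx
      obtain ⟨i, rfl⟩ := hK x hx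
      exact Finset.mem_image.2 ⟨i, Finset.mem_filter.2 ⟨Finset.mem_univ _, hx⟩, rfl⟩
    have h2 := (Finset.card_le_card h1).trans Finset.card_image_le
    have h3 := five_aux (Finset.univ.filter (fun i => v i ∈ K)) (by
      intro i hi hi'
      have h4 := (Finset.mem_filter.1 hi).2
      have h5 := (Finset.mem_filter.1 hi').2
      exact hnadj i (hKn.isClique h4 h5 (hne i)))
    have h4 := hKn.card_eq
    omega
  obtain ⟨f, hf⟩ := min_proper h hT le_rfl hno
  have h0 : ∀ i, f (v i) ≠ f (v (i + 1)) := fun i => nice_two hf ⟨i, rfl⟩ ⟨i + 1, rfl⟩ (hadj i)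
  have a0 := h0 0
  have a1 := h0 1
  have a2 := h0 2
  have a3 := h0 3
  have a4 := h0 4
  simp only [show (0 : Fin 5) + 1 = 1 from rfl, show (1 : Fin 5) + 1 = 2 from rfl,
    show (2 : Fin 5) + 1 = 3 from rfl, show (3 : Fin 5) + 1 = 4 from rfl,
    show (4 : Fin 5) + 1 = 0 from rfl] at a0 a1 a2 a3 a4
  exact bool_five _ _ _ _ _ a0 a1 a2 a3 a4

lemma pent_ne {U : Type*} {F : SimpleGraph U} (htri : ∀ x y z, F.Adj x y → F.Adj y z → ¬ F.Adj x z)
    {a b c d e : U} (_h1 : F.Adj a b) (_h2 : F.Adj b c) (h3 : F.Adj c d) (h4 : F.Adj d e)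
    (h5 : F.Adj e a) : a ≠ c := by
  rintro rfl
  exact htri a d e h3 h4 h5.symm

/-- the complement of a side without three pairwise non-adjacent vertices is a good graph -/
lemma good_of_side {G : SimpleGraph V} (h : MinNonTwoDivisible G) {W : Set V}
    (hW : W ≠ Set.univ)
    (hst : ∀ x ∈ W, ∀ y ∈ W, ∀ z ∈ W, x ≠ y → y ≠ z → x ≠ z →
      G.Adj x y ∨ G.Adj y z ∨ G.Adj x z) : Good (G.induce W)ᶜ G.cliqueNum := by
  classical
  have htri : ∀ x y z : W, (G.induce W)ᶜ.Adj x y → (G.induce W)ᶜ.Adj y z →
      ¬ (G.induce W)ᶜ.Adj x z := by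
    intro x y z h1 h2 h3
    rw [SimpleGraph.compl_adj] at h1 h2 h3
    rcases hst x x.2 y y.2 z z.2 (fun e => h1.1 (Subtype.ext e)) (fun e => h2.1 (Subtype.ext e))
      (fun e => h3.1 (Subtype.ext e)) with h4 | h4 | h4
    · exact h1.2 h4
    · exact h2.2 h4
    · exact h3.2 h4
  refine ⟨htri, ?_, ?_⟩
  · intro a b c d e h1 h2 h3 h4 h5
    have key : ∀ x y z w t : W, (G.induce W)ᶜ.Adj x y → (G.induce W)ᶜ.Adj y z →
        (G.induce W)ᶜ.Adj z w → (G.induce W)ᶜ.Adj w t → (G.induce W)ᶜ.Adj t x →
        G.Adj (x : V) z := by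
      intro x y z w t h1 h2 h3 h4 h5
      have h6 := pent_ne htri h1 h2 h3 h4 h5
      have h7 := htri x y z h1 h2
      rw [SimpleGraph.compl_adj] at h7
      by_contra h8
      exact h7 ⟨h6, h8⟩
    have k1 := key a b c d e h1 h2 h3 h4 h5
    have k2 := key b c d e a h2 h3 h4 h5 h1
    have k3 := key c d e a b h3 h4 h5 h1 h2
    have k4 := key d e a b c h4 h5 h1 h2 h3
    have k5 := key e a b c d h5 h1 h2 h3 h4
    have n : ∀ x y : W, (G.induce W)ᶜ.Adj x y → ¬ G.Adj (x : V) y := by
      intro x y hxy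
      rw [SimpleGraph.compl_adj] at hxy
      exact hxy.2
    refine no_pentagon h hW ![(a : V), c, e, b, d] ?_ ?_ ?_
    · intro i
      fin_cases i
      · exact a.2
      · exact c.2
      · exact e.2
      · exact b.2
      · exact d.2
    · intro i
      fin_cases i
      · exact k1
      · exact k3
      · exact k5
      · exact k2
      · exact k4
    · intro i
      fin_cases i
      · exact fun h' => n e a h5 h'.symm
      · exact fun h' => n b c h2 h'.symm
      · exact fun h' => n d e h4 h'.symm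
      · exact fun h' => n a b h1 h'.symm
      · exact fun h' => n c d h3 h'.symm
  · intro I hI
    have : G.IsClique (I.map (Function.Embedding.subtype _) : Finset V) := by
      intro x hx y hy hxy
      simp only [Finset.coe_map, Function.Embedding.subtype_apply, Set.mem_image,
        Finset.mem_coe] at hx hy
      obtain ⟨x, hx, rfl⟩ := hx
      obtain ⟨y, hy, rfl⟩ := hy
      have h1 := hI x hx y hy
      rw [SimpleGraph.compl_adj] at h1
      by_contra h2
      exact h1 ⟨fun e => hxy (by rw [e]), h2⟩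
    have h2 := SimpleGraph.IsClique.card_le_cliqueNum (tc := this)
    rwa [Finset.card_map] at h2

/-- THE RESULT ON STABLE SETS -/
theorem side_stable {G : SimpleGraph V} (h : MinNonTwoDivisible G) {C A : Set V}
    (hC : G.IsClique C) (hs : IsSide G C A) :
    ∃ x ∈ A ∪ C, ∃ y ∈ A ∪ C, ∃ z ∈ A ∪ C, x ≠ y ∧ y ≠ z ∧ x ≠ z ∧
      ¬ G.Adj x y ∧ ¬ G.Adj y z ∧ ¬ G.Adj x z := by
  classical
  by_contra hcon
  have hst : ∀ x ∈ A ∪ C, ∀ y ∈ A ∪ C, ∀ z ∈ A ∪ C, x ≠ y → y ≠ z → x ≠ z →
      G.Adj x y ∨ G.Adj y z ∨ G.Adj x z := by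
    intro x hx y hy z hz h1 h2 h3
    by_contra hc
    push Not at hc
    exact hcon ⟨x, hx, y, hy, z, hz, h1, h2, h3, hc.1, hc.2.1, hc.2.2⟩
  have hgood := good_of_side h (side_ne_univ hs) hst
  have : Fintype ↥(A ∪ C) := Fintype.ofFinite _
  have hCA : C ⊆ Aᶜ := fun x hx hx' => hs.sub hx' hx
  obtain ⟨g, hg⟩ := min_good h (compl_ne_univ hs)
  have p1 := part_lt hC hCA hg true
  have p2 := part_lt hC hCA hg false
  have p3 := parts_add (C := C) g
  have h2C := hs.two_le h
  have h2 := min_two h
  let Cb : Bool → Finset ↥(A ∪ C) := fun b => Finset.univ.filter (fun x => (x : V) ∈ C ∧ g x = b)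
  have hCb : ∀ b x, x ∈ Cb b ↔ (x : V) ∈ C ∧ g x = b := fun b x => by simp [Cb]
  have hcard : ∀ b, (Cb b).card = {x | x ∈ C ∧ g x = b}.ncard := by
    intro b
    rw [← Set.ncard_coe_finset, ← Set.ncard_image_of_injective _ Subtype.val_injective]
    congr 1
    ext x
    simp only [Set.mem_image, Finset.mem_coe, hCb, Set.mem_ofPred_eq]
    constructor
    · rintro ⟨y, hy, rfl⟩
      exact hy
    · intro hx
      exact ⟨⟨x, Or.inr hx.1⟩, hx, rfl⟩
  have hmem : ∀ x, x ∈ Cb true ∪ Cb false ↔ (x : V) ∈ C := by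
    intro x
    rw [Finset.mem_union, hCb, hCb]
    cases g x <;> simp
  rcases hgood.flex (C1 := Cb true) (C2 := Cb false) (by
      intro x hx hx'
      have h1 := ((hCb _ _).1 hx).2
      have h2 := ((hCb _ _).1 hx').2
      rw [h1] at h2
      exact absurd h2 (by decide)) (by
      intro x hx y hy hxy
      rw [SimpleGraph.compl_adj] at hxy
      rw [hmem] at hx hy
      exact hxy.2 (hC hx hy (fun e => hxy.1 (Subtype.ext e)))) (by rw [hcard]; exact p1)
      (by rw [hcard]; exact p2) (by
      rw [Finset.card_union_of_disjoint, hcard, hcard, p3]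
      · exact h2C
      · rw [Finset.disjoint_left]
        intro x hx hx'
        have h1 := ((hCb _ _).1 hx).2
        have h2 := ((hCb _ _).1 hx').2
        rw [h1] at h2
        exact absurd h2 (by decide)) with ⟨P, hP1, hP2, hP⟩ | ⟨K, hK, hK'⟩
  · -- extension of the splitting
    refine min_glue h hs (f := fun x => decide (∃ hx : x ∈ A ∪ C, (⟨x, hx⟩ : ↥(A ∪ C)) ∈ P))
      (g := g) ?_ hg ?_
    · intro L hL hLn b hb
      have hcardL : (L.subtype (· ∈ A ∪ C)).card = G.cliqueNum := by
        rw [Finset.card_subtype, Finset.filter_true_of_mem (fun x hx => hL x hx)]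
        exact hLn.card_eq
      have hindL : Ind (G.induce (A ∪ C))ᶜ (L.subtype (· ∈ A ∪ C)) := by
        intro x hx y hy hxy
        have hx' : (x : V) ∈ L := by simpa using hx
        have hy' : (y : V) ∈ L := by simpa using hy
        rw [SimpleGraph.compl_adj] at hxy
        exact hxy.2 (hLn.isClique hx' hy' (fun e => hxy.1 (Subtype.ext e)))
      cases b
      · refine hP.2 (L.subtype (· ∈ A ∪ C)) ?_ hindL hcardL
        intro x hx hxP
        have hx' : (x : V) ∈ L := by simpa using hx
        have := hb x hx'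
        rw [decide_eq_false_iff_not] at this
        exact this ⟨x.2, hxP⟩
      · refine hP.1 (L.subtype (· ∈ A ∪ C)) ?_ hindL hcardL
        intro x hx
        have hx' : (x : V) ∈ L := by simpa using hx
        have := hb x hx'
        rw [decide_eq_true_iff] at this
        exact this.2
    · intro x hx
      have hx' : x ∈ A ∪ C := Or.inr hx
      cases hgx : g x
      · rw [decide_eq_false_iff_not]
        rintro ⟨h1, h2⟩
        exact hP2 ⟨x, h1⟩ ((hCb _ _).2 ⟨hx, hgx⟩) h2
      · rw [decide_eq_true_iff]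
        exact ⟨hx', hP1 ⟨x, hx'⟩ ((hCb _ _).2 ⟨hx, hgx⟩)⟩
  · -- two cliques
    have hcl : ∀ I : Finset ↥(A ∪ C), Ind (G.induce (A ∪ C))ᶜ I → (G.induce (A ∪ C)).IsClique I := by
      intro I hI x hx y hy hxy
      have := hI x hx y hy
      rw [SimpleGraph.compl_adj] at this
      by_contra h'
      exact this ⟨hxy, h'⟩
    have hcl' : ∀ I : Finset ↥(A ∪ C), (G.induce (A ∪ C)).IsClique I → I.card ≤ G.cliqueNum := by
      intro I hI
      refine hgood.card I ?_
      intro x hx y hy hxy
      rw [SimpleGraph.compl_adj] at hxy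
      exact hxy.2 (hI hx hy hxy.1)
    exact side_not_colorable h hC hs (two_cliques h2 hcl' (hcl K hK) (hcl _ hK'))

end MP7bd86d
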